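import Pool.Agent.H.MP_b7496a_gt.Hit

/-! # The Fréchet-Urysohn property and the property `α₁` -/

set_option autoImplicit false

open Topology Filter Set

namespace Pool.Agent.Sel

universe u

/-- Arhangel'skii's property `α₁`: for every point `z` and all countable sets `S 0, S 1, ...` which
converge to `z` (every neighbourhood of `z` contains all but finitely many points of `S i`) there is
a countable set `T` which converges to `z` and contains all but finitely many points of each
`S i`. -/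
def AlphaOne (Z : Type) [TopologicalSpace Z] : Prop :=
  ∀ (z : Z) (S : ℕ → Set Z), (∀ i, (S i).Countable ∧ ∀ U ∈ 𝓝 z, (S i \ U).Finite) →
    ∃ T : Set Z, T.Countable ∧ (∀ U ∈ 𝓝 z, (T \ U).Finite) ∧ ∀ i, (S i \ T).Finite

variable {X : Type u} [TopologicalSpace X]

theorem QSelective.frechet [T1Space X] (h : QSelective X) {M : Type} [Countable M] {A : M → Set X}
    (hA : ∀ i, IsClosed (A i)) {b : X} (hne : ∀ i, (A i).Nonempty) :
    @FrechetUrysohnSpace (Option M) (pt (hitFilter A b)) := by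
  classical
  let _ : TopologicalSpace (Option M) := pt (hitFilter A b)
  refine ⟨fun s z hz => ?_⟩
  have hself : ∀ w ∈ s, w ∈ seqClosure s := fun w hw => ⟨fun _ => w, fun _ => hw,
    tendsto_const_nhds⟩
  cases z with
  | some i =>
    refine hself _ ?_
    obtain ⟨w, hw1, hw2⟩ := mem_closure_iff.1 hz {some i} (isOpen_singleton_pt (by simp)) rfl
    rw [← mem_singleton_iff.1 hw1]
    exact hw2
  | none =>
    by_cases hs : none ∈ s
    · exact hself _ hs
    have hpos : ∀ N ∈ hitFilter A b, ∃ m ∈ N, some m ∈ s := by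
      intro N hN
      obtain ⟨w, hw1, hw2⟩ := mem_closure_iff_nhds.1 hz (insert none (some '' N)) (by
        rw [mem_nhds_pt]
        exact ⟨Or.inl rfl, Filter.mem_of_superset hN fun i hi => Or.inr ⟨i, hi, rfl⟩⟩)
      rcases hw1 with h1 | ⟨m, hm, h1⟩
      · rw [h1] at hw2
        exact absurd hw2 hs
      · exact ⟨m, hm, by rw [h1]; exact hw2⟩
    obtain ⟨m0, -, hm0⟩ := hpos univ Filter.univ_mem
    have : Nonempty {m : M // some m ∈ s} := ⟨⟨m0, hm0⟩⟩
    obtain ⟨e, he⟩ := exists_surjective_nat {m : M // some m ∈ s}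
    obtain ⟨x, hx1, hx2⟩ := h.seq (I := ℕ) (b := b)
      (B := fun k => ⋃ i ∈ Finset.range (k + 1), A (e i).1)
      (fun k => ⟨(Finset.range (k + 1)).finite_toSet.isClosed_biUnion fun i _ => hA _, by
        obtain ⟨w, hw⟩ := hne (e 0).1
        exact ⟨w, mem_iUnion₂.2 ⟨0, Finset.mem_range.2 (Nat.succ_pos k), hw⟩⟩⟩)
      (E := fun _ => univ) (fun _ _ _ => Subset.rfl) (by
        intro U hU
        obtain ⟨m, hm, hms⟩ := hpos {m | (A m ∩ U).Nonempty} (mem_hitFilter.2 ⟨U, hU, fun _ h => h⟩)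
        obtain ⟨i, hi⟩ := he ⟨m, hms⟩
        refine ⟨0, Finset.range i, fun k _ hk => ?_⟩
        obtain ⟨w, hw1, hw2⟩ := hm
        refine ⟨w, mem_iUnion₂.2 ⟨i, ?_, ?_⟩, hw2⟩
        · rw [Finset.mem_range] at hk ⊢
          omega
        · rw [hi]
          exact hw1)
    have hi : ∀ k, ∃ i, x k ∈ A (e i).1 := by
      intro k
      obtain ⟨i, -, hi⟩ := mem_iUnion₂.1 (hx1 k)
      exact ⟨i, hi⟩
    choose i hi using hi
    refine ⟨fun k => some (e (i k)).1, fun k => (e (i k)).2, ?_⟩
    rw [Filter.tendsto_def]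
    intro V hV
    obtain ⟨U, hU, hU2⟩ := mem_hitFilter.1 (mem_nhds_pt.1 hV).2
    obtain ⟨n, F, hF⟩ := hx2 U hU
    rw [← Nat.cofinite_eq_atTop]
    refine Filter.mem_of_superset F.finite_toSet.compl_mem_cofinite fun k hk => ?_
    exact hU2 _ ⟨x k, hi k, hF k trivial hk⟩

theorem QSelective.alphaOne [T1Space X] (h : QSelective X) {M : Type} [Countable M]
    {A : M → Set X} (hA : ∀ i, IsClosed (A i)) {b : X} (hb : ∀ i, b ∉ A i)
    (hne : ∀ i, (A i).Nonempty) : @AlphaOne (Option M) (pt (hitFilter A b)) := by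
  classical
  let _ : TopologicalSpace (Option M) := pt (hitFilter A b)
  intro z S hS
  cases z with
  | some i =>
    have h1 : ({some i} : Set (Option M)) ∈ 𝓝 (some i : Option M) :=
      (isOpen_singleton_pt (by simp)).mem_nhds rfl
    refine ⟨{some i}, countable_singleton _, fun U hU => ?_, fun j => (hS j).2 _ h1⟩
    have h2 : ({some i} : Set (Option M)) \ U = ∅ := by
      rw [Set.sdiff_eq_empty, Set.singleton_subset_iff]
      exact mem_of_mem_nhds hU
    rw [h2]
    exact finite_empty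
  | none =>
    by_cases hfin : ∀ i, (S i).Finite
    · refine ⟨∅, countable_empty, fun U _ => ?_, fun i => (hfin i).subset sdiff_subset⟩
      rw [Set.empty_sdiff]
      exact finite_empty
    push Not at hfin
    obtain ⟨i0, hi0⟩ := hfin
    have hinf : {m : M | some m ∈ S i0}.Infinite := by
      intro hf
      refine hi0 (((hf.image some).insert none).subset fun z hz => ?_)
      cases z with
      | none => exact Or.inl rfl
      | some m => exact Or.inr ⟨m, hz, rfl⟩
    let y : ℕ ↪ {m : M | some m ∈ S i0} := hinf.natEmbedding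
    have hnb : ∀ U ∈ 𝓝 b, insert none (some '' {m | (A m ∩ U).Nonempty}) ∈ 𝓝 (none : Option M) := by
      intro U hU
      rw [mem_nhds_pt]
      exact ⟨Or.inl rfl, mem_hitFilter.2 ⟨U, hU, fun m hm => Or.inr ⟨m, hm, rfl⟩⟩⟩
    have hSf : ∀ U ∈ 𝓝 b, ∀ i, {m | some m ∈ S i ∧ ¬ (A m ∩ U).Nonempty}.Finite := by
      intro U hU i
      have h1 := (hS i).2 _ (hnb U hU)
      refine (h1.preimage (f := some) (Option.some_injective _).injOn).subset fun m hm =>
        ⟨hm.1, ?_⟩
      rintro (h2 | ⟨m', hm', h2⟩)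
      · exact absurd h2 (by simp)
      · rw [Option.some_injective _ h2] at hm'
        exact hm.2 hm'
    obtain ⟨x, hx1, hx2⟩ := h.seq (I := {p : ℕ × M // some p.2 ∈ S p.1}) (b := b)
      (B := fun p => A (y p.1.1).1 ∪ A p.1.2)
      (fun p => ⟨(hA _).union (hA _), (hne _).mono subset_union_left⟩)
      (E := fun _ => univ) (fun _ _ _ => Subset.rfl) (by
        intro U hU
        have h1 : {i | ¬ (A (y i).1 ∩ U).Nonempty}.Finite := by
          have h2 := hSf U hU i0
          refine (h2.preimage (f := fun i => (y i).1) ?_).subset fun i hi => ⟨(y i).2, hi⟩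
          exact (Subtype.val_injective.comp y.injective).injOn
        have h3 : (⋃ i ∈ {i | ¬ (A (y i).1 ∩ U).Nonempty},
            Prod.mk i '' {m | some m ∈ S i ∧ ¬ (A m ∩ U).Nonempty}).Finite :=
          h1.biUnion fun i _ => (hSf U hU i).image _
        have h4 : {p : {p : ℕ × M // some p.2 ∈ S p.1} |
            ¬ ((A (y p.1.1).1 ∪ A p.1.2) ∩ U).Nonempty}.Finite := by
          refine (h3.preimage (f := Subtype.val) Subtype.val_injective.injOn).subset fun p hp => ?_
          refine mem_iUnion₂.2 ⟨p.1.1, fun h5 => hp (h5.mono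
            (inter_subset_inter_left _ subset_union_left)), p.1.2, ⟨p.2, fun h5 => hp (h5.mono
            (inter_subset_inter_left _ subset_union_right))⟩, rfl⟩
        refine ⟨0, h4.toFinset, fun p _ hp => ?_⟩
        by_contra h5
        exact hp (h4.mem_toFinset.2 h5))
    refine ⟨some '' {m | ∃ i, ∃ hi : some m ∈ S i, x ⟨(i, m), hi⟩ ∈ A m}, Set.to_countable _,
      fun U hU => ?_, fun i => ?_⟩
    · obtain ⟨V, hV, hV2⟩ := mem_hitFilter.1 (mem_nhds_pt.1 hU).2
      obtain ⟨n, F, hF⟩ := hx2 V hV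
      refine (F.finite_toSet.image fun p => some p.1.2).subset ?_
      rintro _ ⟨⟨m, ⟨i, hi, hm⟩, rfl⟩, hmU⟩
      refine ⟨⟨(i, m), hi⟩, ?_, rfl⟩
      by_contra h1
      exact hmU (hV2 m ⟨_, hm, hF _ trivial h1⟩)
    · obtain ⟨n, F, hF⟩ := hx2 (A (y i).1)ᶜ ((hA _).isOpen_compl.mem_nhds (hb _))
      refine ((F.finite_toSet.image fun p => some p.1.2).insert none).subset ?_
      rintro z ⟨hz1, hz2⟩
      cases z with
      | none => exact Or.inl rfl
      | some m =>
        refine Or.inr ⟨⟨(i, m), hz1⟩, ?_, rfl⟩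
        by_contra h1
        rcases hx1 ⟨(i, m), hz1⟩ with h2 | h2
        · exact hF _ trivial h1 h2
        · exact hz2 ⟨m, ⟨i, hz1, h2⟩, rfl⟩

end Pool.Agent.Sel
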