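import Pool.Agent.H.MP_b7496a_gt.Hit

/-! # Filters on `ℕ` with selections for `ℵ₁` set-valued maps -/

set_option autoImplicit false

open Topology Filter Set

namespace Pool.Agent.Sel

universe u

/-- A countably generated filter `s.1` on `ℕ` and a countable set `s.2` of promises: the final
filter will be coarser than `cofinite ⊓ 𝓟 A` for all `A` in `s.2`. -/
structure Good (s : Filter ℕ × Set (Set ℕ)) : Prop where
  cg : s.1.IsCountablyGenerated
  cof : s.1 ≤ cofinite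
  cnt : s.2.Countable
  orth : ∀ A ∈ s.2, ∀ N ∈ s.1, (A \ N).Finite
  thin : ∀ B : Set (Set ℕ), B ⊆ s.2 → B.Finite → ∃ A ∈ s.2, (A \ ⋃₀ B).Infinite

/-- `s'` extends `s`. -/
def Le (s s' : Filter ℕ × Set (Set ℕ)) : Prop := s'.1 ≤ s.1 ∧ s.2 ⊆ s'.2

theorem Le.refl (s : Filter ℕ × Set (Set ℕ)) : Le s s := ⟨le_refl _, Subset.rfl⟩

theorem Le.trans {s s' s'' : Filter ℕ × Set (Set ℕ)} (h : Le s s') (h' : Le s' s'') : Le s s'' :=
  ⟨h'.1.trans h.1, h.2.trans h'.2⟩

/-- Restriction of the filter to a set which almost contains all promises. -/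
theorem Good.inf {s : Filter ℕ × Set (Set ℕ)} (h : Good s) {N : Set ℕ}
    (hN : ∀ A ∈ s.2, (A \ N).Finite) : Good (s.1 ⊓ 𝓟 N, s.2) where
  cg := by
    have := h.cg
    show (s.1 ⊓ 𝓟 N).IsCountablyGenerated
    infer_instance
  cof := inf_le_left.trans h.cof
  cnt := h.cnt
  orth := by
    intro A hA K hK
    refine ((h.orth A hA _ (Filter.mem_inf_principal.1 hK)).union (hN A hA)).subset
      fun x hx => ?_
    by_cases hxN : x ∈ N
    · exact Or.inl ⟨hx.1, fun h2 => hx.2 (h2 hxN)⟩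
    · exact Or.inr ⟨hx.1, hxN⟩
  thin := h.thin

/-- An infinite set, in infinitely many infinite pieces, which is almost contained in all sets of
the filter and almost disjoint from all promises. -/
theorem Good.exists_diag {s : Filter ℕ × Set (Set ℕ)} (h : Good s) :
    ∃ d : ℕ → ℕ, StrictMono d ∧ (∀ A ∈ s.2, (A ∩ range d).Finite) ∧
      ∀ N ∈ s.1, (range d \ N).Finite := by
  have := h.cg
  obtain ⟨N, hN⟩ := s.1.exists_antitone_basis
  have hne : s.2.Nonempty := by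
    obtain ⟨A, hA, -⟩ := h.thin ∅ (empty_subset _) finite_empty
    exact ⟨A, hA⟩
  obtain ⟨A, hA⟩ := h.cnt.exists_eq_range hne
  have hAs : ∀ m, A m ∈ s.2 := fun m => by rw [hA]; exact ⟨m, rfl⟩
  have h1 : ∀ k, ∃ᶠ j in atTop, j ∈ N k \ ⋃ m ∈ Finset.range k, A m := by
    intro k
    rw [← Nat.cofinite_eq_atTop, Filter.frequently_cofinite_iff_infinite]
    obtain ⟨A', hA', hA2⟩ := h.thin (A '' ↑(Finset.range k)) (by
      rintro _ ⟨m, -, rfl⟩
      exact hAs m) ((Finset.finite_toSet _).image _)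
    have h2 := hA2.sdiff (h.orth A' hA' _ (hN.1.mem_of_mem (i := k) trivial))
    refine h2.mono fun j hj => ?_
    have h3 : j ∈ N k := by
      by_contra h3
      exact hj.2 ⟨hj.1.1, h3⟩
    refine ⟨h3, fun h4 => hj.1.2 ?_⟩
    obtain ⟨m, hm, hjm⟩ := mem_iUnion₂.1 h4
    exact ⟨A m, ⟨m, hm, rfl⟩, hjm⟩
  obtain ⟨d, hd, hd2⟩ := Filter.extraction_forall_of_frequently h1
  refine ⟨d, hd, fun B hB => ?_, fun K hK => ?_⟩
  · rw [hA] at hB
    obtain ⟨m, rfl⟩ := hB
    refine ((Set.finite_le_nat m).image d).subset ?_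
    rintro _ ⟨hx, k, rfl⟩
    refine ⟨k, ?_, rfl⟩
    by_contra hk
    have hk' : m < k := not_le.1 hk
    exact (hd2 k).2 (mem_iUnion₂.2 ⟨m, Finset.mem_range.2 hk', hx⟩)
  · obtain ⟨j, -, hj⟩ := hN.1.mem_iff.1 hK
    refine ((Set.finite_lt_nat j).image d).subset ?_
    rintro _ ⟨⟨k, rfl⟩, hk⟩
    refine ⟨k, ?_, rfl⟩
    by_contra hk'
    exact hk (hj (hN.2 (not_lt.1 hk') (hd2 k).1))

/-- The filter can be refined. -/
theorem Good.grow {s : Filter ℕ × Set (Set ℕ)} (h : Good s) :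
    ∃ s', Good s' ∧ Le s s' ∧ s'.1 ≠ s.1 := by
  obtain ⟨d, hd, h1, h2⟩ := h.exists_diag
  refine ⟨(s.1 ⊓ 𝓟 (range d)ᶜ, s.2), h.inf fun A hA => ?_, ⟨inf_le_left, Subset.rfl⟩, fun h3 => ?_⟩
  · refine (h1 A hA).subset fun x hx => ⟨hx.1, ?_⟩
    exact not_not.1 hx.2
  · have h4 : (range d)ᶜ ∈ s.1 := by
      rw [← h3]
      exact Filter.mem_inf_of_right (Filter.mem_principal_self _)
    have h5 := h2 _ h4
    rw [sdiff_compl, inter_self] at h5
    exact Set.infinite_range_of_injective hd.injective h5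

theorem cofinite_inf_cg (A : Set ℕ) : (cofinite ⊓ 𝓟 A : Filter ℕ).IsCountablyGenerated := by
  rw [Nat.cofinite_eq_atTop]
  infer_instance

theorem mem_cofinite_inf {A N : Set ℕ} : N ∈ (cofinite ⊓ 𝓟 A : Filter ℕ) ↔ (A \ N).Finite := by
  rw [Filter.mem_inf_principal, Filter.mem_cofinite]
  have h : {x | x ∈ A → x ∈ N}ᶜ = A \ N := by
    ext x
    simp
  rw [h]

/-- What we want for a set-valued map `ψ`. -/
def Done {Y : Type} [TopologicalSpace Y] (ψ : Y → Set (Option ℕ))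
    (s : Filter ℕ × Set (Set ℕ)) : Prop :=
  ¬ @LSC Y (Option ℕ) _ (pt s.1) ψ ∨ ∃ A ∈ s.2, ∃ f : Y → Option ℕ,
    @Continuous Y (Option ℕ) _ (pt (cofinite ⊓ 𝓟 A)) f ∧ ∀ y, f y ∈ ψ y

theorem lsc_pt_mono {Y : Type} [TopologicalSpace Y] {F G : Filter ℕ} (h : G ≤ F)
    {ψ : Y → Set (Option ℕ)} (hl : @LSC Y (Option ℕ) _ (pt G) ψ) :
    @LSC Y (Option ℕ) _ (pt F) ψ := by
  rw [lsc_pt] at hl ⊢
  exact ⟨hl.1, fun N hN => hl.2 N (h hN)⟩

theorem Done.mono {Y : Type} [TopologicalSpace Y] {ψ : Y → Set (Option ℕ)}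
    {s s' : Filter ℕ × Set (Set ℕ)} (h : Le s s') (hd : Done ψ s) : Done ψ s' := by
  rcases hd with hd | ⟨A, hA, hd⟩
  · exact Or.inl fun h2 => hd (lsc_pt_mono h.1 h2)
  · exact Or.inr ⟨A, h.2 hA, hd⟩

/-- One step of the construction. -/
theorem Good.step {s : Filter ℕ × Set (Set ℕ)} (h : Good s) {Y : Type} [TopologicalSpace Y]
    [T3Space Y] [Countable Y] {ψ : Y → Set (Option ℕ)} (hψ : ∀ y, (ψ y).Nonempty) :
    ∃ s', Good s' ∧ Le s s' ∧ Done ψ s' := by
  by_cases h0 : ∀ n, IsOpen {y | some n ∈ ψ y}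
  swap
  · exact ⟨s, h, Le.refl s, Or.inl fun h2 => h0 (lsc_pt.1 h2).1⟩
  by_cases h1 : ∀ N : Set ℕ, (∀ A ∈ s.2, (A \ N).Finite) →
      IsOpen {y | none ∈ ψ y ∨ ∃ n ∈ N, some n ∈ ψ y}
  swap
  · push Not at h1
    obtain ⟨N, hN, hN2⟩ := h1
    refine ⟨(s.1 ⊓ 𝓟 N, s.2), h.inf hN, ⟨inf_le_left, Subset.rfl⟩, Or.inl fun h2 => hN2 ?_⟩
    exact (lsc_pt.1 h2).2 N (Filter.mem_inf_of_right (Filter.mem_principal_self _))
  -- the promise
  obtain ⟨d, hd, hd1, hd2⟩ := h.exists_diag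
  have := h.cg
  obtain ⟨N, hN⟩ := s.1.exists_antitone_basis
  have hne : s.2.Nonempty := by
    obtain ⟨A, hA, -⟩ := h.thin ∅ (empty_subset _) finite_empty
    exact ⟨A, hA⟩
  obtain ⟨A, hA⟩ := h.cnt.exists_eq_range hne
  have hAs : ∀ m, A m ∈ s.2 := fun m => by rw [hA]; exact ⟨m, rfl⟩
  obtain ⟨P, hP⟩ : ∃ P : Set ℕ, P = ⋃ m, (A m ∩ N m) \ range d := ⟨_, rfl⟩
  have hAP : ∀ B ∈ s.2, (B \ P).Finite := by
    intro B hB
    rw [hA] at hB
    obtain ⟨m, rfl⟩ := hB
    refine ((h.orth _ (hAs m) _ (hN.1.mem_of_mem (i := m) trivial)).union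
      (hd1 _ (hAs m))).subset fun x hx => ?_
    by_cases hxN : x ∈ N m
    · right
      refine ⟨hx.1, ?_⟩
      by_contra h2
      refine hx.2 ?_
      rw [hP]
      exact mem_iUnion.2 ⟨m, ⟨hx.1, hxN⟩, h2⟩
    · exact Or.inl ⟨hx.1, hxN⟩
  have hPN : ∀ K ∈ s.1, (P \ K).Finite := by
    intro K hK
    obtain ⟨j, -, hj⟩ := hN.1.mem_iff.1 hK
    have h2 : (⋃ m ∈ Finset.range j, A m \ K).Finite :=
      (Finset.finite_toSet _).biUnion fun m _ => h.orth _ (hAs m) K hK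
    refine h2.subset fun x hx => ?_
    rw [hP] at hx
    obtain ⟨m, ⟨hx1, hx2⟩, -⟩ := mem_iUnion.1 hx.1
    refine mem_iUnion₂.2 ⟨m, ?_, hx1, hx.2⟩
    rw [Finset.mem_range]
    by_contra h3
    exact hx.2 (hj (hN.2 (not_lt.1 h3) hx2))
  have hPd : Disjoint P (range d) := by
    rw [Set.disjoint_left, hP]
    intro x hx
    obtain ⟨m, -, hx2⟩ := mem_iUnion.1 hx
    exact hx2
  -- the pieces of the diagonal set
  obtain ⟨D, hD⟩ : ∃ D : ℕ → Set ℕ, D = fun j => range fun i => d (Nat.pair j i) := ⟨_, rfl⟩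
  have hDd : ∀ j, D j ⊆ range d := by
    rintro j _ hx
    rw [hD] at hx
    obtain ⟨i, rfl⟩ := hx
    exact ⟨_, rfl⟩
  have hDinf : ∀ j, (D j).Infinite := by
    intro j
    rw [hD]
    refine Set.infinite_range_of_injective fun i i' hi => ?_
    have h2 := hd.injective hi
    exact (Nat.pair_eq_pair.1 h2).2
  have hDdis : ∀ j j', j ≠ j' → Disjoint (D j) (D j') := by
    intro j j' hj
    rw [Set.disjoint_left, hD]
    rintro _ ⟨i, rfl⟩ ⟨i', hi⟩
    exact hj (Nat.pair_eq_pair.1 (hd.injective hi)).1.symm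
  have hDinj : Function.Injective D := by
    intro j j' hj
    by_contra h2
    have h3 := hDdis j j' h2
    rw [← hj, Set.disjoint_iff_inter_eq_empty, inter_self] at h3
    exact (hDinf j).nonempty.ne_empty h3
  have hgood : Good (s.1, s.2 ∪ insert P (range D)) :=
    { cg := h.cg
      cof := h.cof
      cnt := h.cnt.union ((countable_range D).insert P)
      orth := by
        rintro B (hB | hB | ⟨j, rfl⟩) K hK
        · exact h.orth B hB K hK
        · rw [hB]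
          exact hPN K hK
        · exact (hd2 K hK).subset (Set.sdiff_subset_sdiff_left (hDd j))
      thin := by
        intro B hB hBf
        have h2 : (D ⁻¹' B).Finite := hBf.preimage hDinj.injOn
        obtain ⟨j, hj⟩ := h2.exists_notMem
        refine ⟨D j, Or.inr (Or.inr ⟨j, rfl⟩), ?_⟩
        have h3 : (⋃ C ∈ B, D j ∩ C).Finite := by
          refine hBf.biUnion fun C hC => ?_
          rcases hB hC with h4 | h4 | ⟨j', rfl⟩
          · refine (hd1 C h4).subset fun x hx => ⟨hx.2, hDd j hx.1⟩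
          · rw [h4]
            have h5 : D j ∩ P = ∅ := by
              rw [← Set.disjoint_iff_inter_eq_empty]
              exact (hPd.mono_right (hDd j)).symm
            rw [h5]
            exact finite_empty
          · have h5 : D j ∩ D j' = ∅ := by
              rw [← Set.disjoint_iff_inter_eq_empty]
              exact hDdis j j' fun h6 => hj (by rw [h6]; exact hC)
            rw [h5]
            exact finite_empty
        refine ((hDinf j).sdiff h3).mono fun x hx => ⟨hx.1, ?_⟩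
        rintro ⟨C, hC, hxC⟩
        exact hx.2 (mem_iUnion₂.2 ⟨C, hC, hx.1, hxC⟩) }
  refine ⟨_, hgood, ⟨le_refl _, subset_union_left⟩, Or.inr ⟨P, Or.inr (Or.inl rfl), ?_⟩⟩
  let _ : TopologicalSpace (Option ℕ) := pt (cofinite ⊓ 𝓟 P)
  have _ : (cofinite ⊓ 𝓟 P : Filter ℕ).IsCountablyGenerated := cofinite_inf_cg P
  have _ : FirstCountableTopology (Option ℕ) := firstCountable_pt
  refine exists_selection hψ (lsc_pt.2 ⟨h0, fun K hK => h1 K fun B hB => ?_⟩)
  rw [mem_cofinite_inf] at hK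
  refine ((hAP B hB).union hK).subset fun x hx => ?_
  by_cases hxP : x ∈ P
  · exact Or.inr ⟨hxP, hx.2⟩
  · exact Or.inl ⟨hx.1, hxP⟩

/-- Union of a countable chain. -/
theorem Good.sup {c : Set (Filter ℕ × Set (Set ℕ))} (hc : c.Countable) (hne : c.Nonempty)
    (hg : ∀ s ∈ c, Good s) (hch : ∀ s ∈ c, ∀ s' ∈ c, Le s s' ∨ Le s' s) :
    ∃ u, Good u ∧ ∀ s ∈ c, Le s u := by
  have hdir : DirectedOn ((fun s : Filter ℕ × Set (Set ℕ) => s.1) ⁻¹'o (· ≥ ·)) c := by
    intro s hs s' hs'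
    rcases hch s hs s' hs' with h | h
    · exact ⟨s', hs', h.1, le_refl _⟩
    · exact ⟨s, hs, le_refl _, h.1⟩
  have hmem : ∀ N, N ∈ (⨅ s ∈ c, s.1) ↔ ∃ s ∈ c, N ∈ s.1 := fun N =>
    Filter.mem_biInf_of_directed hdir hne
  refine ⟨(⨅ s ∈ c, s.1, ⋃ s ∈ c, s.2), ?_, fun s hs => ⟨iInf₂_le s hs, fun A hA =>
    mem_iUnion₂.2 ⟨s, hs, hA⟩⟩⟩
  refine
    { cg := ?_
      cof := ?_
      cnt := hc.biUnion fun s hs => (hg s hs).cnt
      orth := ?_
      thin := ?_ }
  · have h1 : Countable c := hc.to_subtype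
    have h2 : (⨅ s ∈ c, s.1) = ⨅ s : c, s.1.1 := iInf_subtype'
    show (⨅ s ∈ c, s.1).IsCountablyGenerated
    rw [h2]
    have h3 : ∀ s : c, s.1.1.IsCountablyGenerated := fun s => (hg s.1 s.2).cg
    infer_instance
  · obtain ⟨s, hs⟩ := hne
    exact (iInf₂_le s hs).trans (hg s hs).cof
  · intro A hA N hN
    obtain ⟨s, hs, hA⟩ := mem_iUnion₂.1 hA
    obtain ⟨s', hs', hN⟩ := (hmem N).1 hN
    rcases hch s hs s' hs' with h | h
    · exact (hg s' hs').orth A (h.2 hA) N hN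
    · exact (hg s hs).orth A hA N (h.1 hN)
  · intro B hB hBf
    have h1 : ∃ s ∈ c, B ⊆ s.2 := by
      induction B, hBf using Set.Finite.induction_on with
      | empty =>
        obtain ⟨s, hs⟩ := hne
        exact ⟨s, hs, empty_subset _⟩
      | @insert A B _ _ ih =>
        obtain ⟨s, hs, h2⟩ := ih ((subset_insert _ _).trans hB)
        obtain ⟨s', hs', h3⟩ := mem_iUnion₂.1 (hB (mem_insert A B))
        rcases hch s hs s' hs' with h | h
        · exact ⟨s', hs', insert_subset h3 (h2.trans h.2)⟩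
        · exact ⟨s, hs, insert_subset (h.2 h3) h2⟩
    obtain ⟨s, hs, h2⟩ := h1
    obtain ⟨A, hA, h3⟩ := (hg s hs).thin B h2 hBf
    exact ⟨A, mem_iUnion₂.2 ⟨s, hs, hA⟩, h3⟩

/-- An initial state. -/
theorem exists_good : ∃ s, Good s := by
  obtain ⟨D, hD⟩ : ∃ D : ℕ → Set ℕ, D = fun j => range fun i => Nat.pair j i := ⟨_, rfl⟩
  have hDinf : ∀ j, (D j).Infinite := by
    intro j
    rw [hD]
    exact Set.infinite_range_of_injective fun i i' hi => (Nat.pair_eq_pair.1 hi).2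
  have hDdis : ∀ j j', j ≠ j' → D j ∩ D j' = ∅ := by
    intro j j' hj
    ext x
    rw [mem_inter_iff, hD]
    constructor
    · rintro ⟨⟨i, rfl⟩, ⟨i', hi⟩⟩
      exact absurd (Nat.pair_eq_pair.1 hi).1.symm hj
    · exact fun h => h.elim
  have hDinj : Function.Injective D := by
    intro j j' hj
    by_contra h2
    have h3 := hDdis j j' h2
    rw [← hj, inter_self] at h3
    exact (hDinf j).nonempty.ne_empty h3
  refine ⟨(cofinite, range D), ?_⟩
  refine
    { cg := by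
        show (cofinite : Filter ℕ).IsCountablyGenerated
        rw [Nat.cofinite_eq_atTop]
        infer_instance
      cof := le_refl _
      cnt := countable_range D
      orth := by
        intro A _ N hN
        have h1 : Nᶜ.Finite := hN
        exact h1.subset fun x hx => hx.2
      thin := ?_ }
  intro B hB hBf
  have h2 : (D ⁻¹' B).Finite := hBf.preimage hDinj.injOn
  obtain ⟨j, hj⟩ := h2.exists_notMem
  refine ⟨D j, ⟨j, rfl⟩, (hDinf j).mono fun x hx => ⟨hx, ?_⟩⟩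
  rintro ⟨C, hC, hxC⟩
  obtain ⟨j', rfl⟩ := hB hC
  have h3 : x ∈ D j ∩ D j' := ⟨hx, hxC⟩
  rw [hDdis j j' fun h6 => hj (by rw [h6]; exact hC)] at h3
  exact h3

end Pool.Agent.Sel
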