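import Mathlib

/-! # Countable zero-dimensional second countable spaces are closed subspaces of the rationals -/

set_option autoImplicit false

open Topology Filter Set

namespace Pool.Agent.Sel

set_option warn.classDefReducibility false in
open Classical in
/-- The topology generated by the sets `C j` and their complements. -/
noncomputable def topOf {W ι : Type} (C : ι → Set W) : TopologicalSpace W :=
  TopologicalSpace.induced (fun w => (fun j => decide (w ∈ C j) : ι → Bool)) inferInstance

theorem mem_nhds_topOf {W ι : Type} {C : ι → Set W} {s : Set W} {w : W} :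
    s ∈ @nhds W (topOf C) w ↔
      ∃ J : Finset ι, ∀ w', (∀ j ∈ J, (w' ∈ C j ↔ w ∈ C j)) → w' ∈ s := by
  classical
  rw [topOf, nhds_induced, mem_comap]
  constructor
  · rintro ⟨t, ht, hts⟩
    rw [nhds_pi, Filter.mem_pi'] at ht
    obtain ⟨J, v, hv, hJ⟩ := ht
    refine ⟨J, fun w' hw' => hts (hJ ?_)⟩
    intro j hj
    have h1 : decide (w' ∈ C j) = decide (w ∈ C j) := by
      rw [decide_eq_decide]
      exact hw' j hj
    show decide (w' ∈ C j) ∈ v j
    rw [h1]
    exact mem_of_mem_nhds (hv j)
  · rintro ⟨J, hJ⟩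
    refine ⟨Set.pi (↑J) fun j => {decide (w ∈ C j)}, ?_, ?_⟩
    · rw [nhds_pi]
      exact Filter.pi_mem_pi J.finite_toSet fun j _ => mem_nhds_discrete.2 rfl
    · intro w' hw'
      refine hJ w' fun j hj => ?_
      have h1 : decide (w' ∈ C j) = decide (w ∈ C j) := hw' j hj
      rwa [decide_eq_decide] at h1

theorem interior_cantorSet : interior cantorSet = ∅ := by
  by_contra h
  obtain ⟨x, hx⟩ := Set.nonempty_iff_ne_empty.2 h
  obtain ⟨ε, hε, hε2⟩ := Metric.mem_nhds_iff.1 (mem_interior_iff_mem_nhds.1 hx)
  have hsub : Icc x (x + ε / 2) ⊆ cantorSet := by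
    intro y hy
    refine hε2 ?_
    rw [Metric.mem_ball, Real.dist_eq, abs_of_nonneg (by linarith [hy.1])]
    linarith [hy.2]
  -- the inclusion of the interval in the Cantor set
  have hc : Continuous fun y : Icc x (x + ε / 2) => (⟨y.1, hsub y.2⟩ : cantorSet) :=
    Continuous.subtype_mk continuous_subtype_val _
  have hc2 := cantorSetHomeomorphNatToBool.continuous.comp hc
  have hpre : IsPreconnected (univ : Set (Icc x (x + ε / 2))) := by
    have : PreconnectedSpace (Icc x (x + ε / 2)) :=
      Subtype.preconnectedSpace isPreconnected_Icc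
    exact isPreconnected_univ
  have h1 := (hpre.image _ hc2.continuousOn).subsingleton
  have h2 := h1 (mem_image_of_mem _ (mem_univ (⟨x, ⟨le_refl x, by linarith⟩⟩ : Icc x (x + ε / 2))))
    (mem_image_of_mem _ (mem_univ (⟨x + ε / 2, ⟨by linarith, le_refl _⟩⟩ : Icc x (x + ε / 2))))
  have h3 := cantorSetHomeomorphNatToBool.injective h2
  have h4 : x = x + ε / 2 := congrArg Subtype.val h3
  linarith

/-- A countable dense subset of the real line is homeomorphic to `ℚ`. -/
theorem homeo_rat {T : Set ℝ} (hT : T.Countable) (hd : Dense T) : Nonempty (T ≃ₜ ℚ) := by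
  have : Countable T := hT.to_subtype
  have hbt : ∀ {x y : ℝ}, x < y → ∃ a : T, x < a ∧ (a : ℝ) < y := by
    intro x y hxy
    obtain ⟨a, ha, haT⟩ := hd.exists_between hxy
    exact ⟨⟨a, ha⟩, haT.1, haT.2⟩
  have : OrderTopology T := induced_orderTopology (Subtype.val : T → ℝ) Iff.rfl hbt
  have : DenselyOrdered T := ⟨fun a b hab => by
    obtain ⟨c, hc1, hc2⟩ := hbt (x := a.1) (y := b.1) hab
    exact ⟨c, hc1, hc2⟩⟩
  have : NoMinOrder T := ⟨fun a => by
    obtain ⟨c, _, hc2⟩ := hbt (x := a.1 - 1) (y := a.1) (by linarith)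
    exact ⟨c, hc2⟩⟩
  have : NoMaxOrder T := ⟨fun a => by
    obtain ⟨c, hc1, _⟩ := hbt (x := a.1) (y := a.1 + 1) (by linarith)
    exact ⟨c, hc1⟩⟩
  have : Nonempty T := by
    obtain ⟨c, _, _⟩ := hbt (x := 0) (y := 1) one_pos
    exact ⟨c⟩
  obtain ⟨e⟩ := Order.iso_of_countable_dense T ℚ
  exact ⟨e.toHomeomorph⟩

/-- A countable space whose topology is generated by countably many sets and their complements, and
which these sets separate, is homeomorphic to a closed subspace of `ℚ`. -/
theorem exists_rat {W ι : Type} [Countable W] [Countable ι] (C : ι → Set W)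
    (hC : ∀ w w', (∀ j, w ∈ C j ↔ w' ∈ C j) → w = w') :
    ∃ i : W → ℚ, @IsClosedEmbedding W ℚ (topOf C) _ i := by
  classical
  let _ : TopologicalSpace W := topOf C
  have he : IsEmbedding (fun w => (fun j => decide (w ∈ C j) : ι → Bool)) := by
    refine ⟨⟨rfl⟩, fun w w' h => hC w w' fun j => ?_⟩
    have h1 := congrFun h j
    simpa only [decide_eq_decide] using h1
  obtain ⟨s, hs⟩ := exists_surjective_nat (Option ι)
  let k : (ι → Bool) → ℕ → Bool := fun v n => (s n).elim true v
  have hk : IsEmbedding k := by
    refine (Continuous.isClosedEmbedding ?_ ?_).isEmbedding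
    · refine continuous_pi fun n => ?_
      show Continuous fun v : ι → Bool => (s n).elim true v
      cases h : s n with
      | none => exact continuous_const
      | some j => exact continuous_apply j
    · intro v v' h
      funext j
      obtain ⟨n, hn⟩ := hs (some j)
      have h1 : (s n).elim true v = (s n).elim true v' := congrFun h n
      rwa [hn] at h1
  have hg : IsEmbedding (fun w => ((cantorSetHomeomorphNatToBool.symm
      (k fun j => decide (w ∈ C j)) : cantorSet) : ℝ)) :=
    IsEmbedding.subtypeVal.comp (cantorSetHomeomorphNatToBool.symm.isEmbedding.comp (hk.comp he))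
  set g : W → ℝ := fun w => ((cantorSetHomeomorphNatToBool.symm
      (k fun j => decide (w ∈ C j)) : cantorSet) : ℝ) with hgdef
  have hgc : ∀ w, g w ∈ cantorSet := fun w => Subtype.coe_prop _
  set T : Set ℝ := range g ∪ (range ((↑) : ℚ → ℝ) ∩ cantorSetᶜ) with hTdef
  have hTc : T.Countable := (countable_range g).union ((countable_range _).mono inter_subset_left)
  have hTd : Dense T := by
    refine Dense.mono subset_union_right ?_
    refine Dense.inter_of_isOpen_right Rat.denseRange_cast ?_ isClosed_cantorSet.isOpen_compl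
    rw [← interior_eq_empty_iff_dense_compl]
    exact interior_cantorSet
  obtain ⟨h⟩ := homeo_rat hTc hTd
  set g' : W → T := fun w => ⟨g w, Or.inl ⟨w, rfl⟩⟩ with hg'
  have hg'e : IsEmbedding g' := by
    have h1 : IsEmbedding ((Subtype.val : T → ℝ) ∘ g') := hg
    exact IsEmbedding.of_comp (Continuous.subtype_mk hg.continuous _) continuous_subtype_val h1
  have hg'c : IsClosed (range g') := by
    have h1 : range g' = (Subtype.val : T → ℝ) ⁻¹' cantorSet := by
      ext t
      constructor
      · rintro ⟨w, rfl⟩
        exact hgc w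
      · intro ht
        rcases t.2 with ⟨w, hw⟩ | hw
        · exact ⟨w, Subtype.ext hw⟩
        · exact absurd ht hw.2
    rw [h1]
    exact isClosed_cantorSet.preimage continuous_subtype_val
  exact ⟨h ∘ g', h.isClosedEmbedding.comp ⟨hg'e, hg'c⟩⟩

end Pool.Agent.Sel
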