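import Pool.Agent.H.MP_b7496a_gt.Alpha

/-! # Selections of finite-valued maps -/

set_option autoImplicit false

open Topology Filter Set

namespace Pool.Agent.Sel

universe u

variable {X : Type u} [TopologicalSpace X]

/-- Finite-valued lower semicontinuous maps from `ℚ` to the space of a hit filter have continuous
selections. -/
theorem QSelective.finite [T1Space X] (h : QSelective X) {M : Type} [Countable M]
    {A : M → Set X} (hA : ∀ i, IsClosed (A i)) {b : X} (hb : ∀ i, b ∉ A i)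
    (hne : ∀ i, (A i).Nonempty) {ψ : ℚ → Set (Option M)}
    (hψ : ∀ q, (ψ q).Finite ∧ (ψ q).Nonempty) (hl : @LSC ℚ (Option M) _ (pt (hitFilter A b)) ψ) :
    ∃ f : ℚ → Option M, @Continuous ℚ (Option M) _ (pt (hitFilter A b)) f ∧ ∀ q, f q ∈ ψ q := by
  classical
  let B : Option M → Set X := fun w => w.elim {b} A
  have hB : ∀ w, IsClosed (B w) ∧ (B w).Nonempty := by
    intro w
    cases w with
    | none => exact ⟨isClosed_singleton, singleton_nonempty b⟩
    | some i => exact ⟨hA i, hne i⟩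
  obtain ⟨F, hF, hFψ⟩ := h (fun q => ⋃ w ∈ ψ q, B w) (fun q =>
    ⟨(hψ q).1.isClosed_biUnion fun w _ => (hB w).1, by
      obtain ⟨w, hw⟩ := (hψ q).2
      obtain ⟨x, hx⟩ := (hB w).2
      exact ⟨x, mem_iUnion₂.2 ⟨w, hw, hx⟩⟩⟩) (by
    intro U hU
    have h1 := hl {w | (B w ∩ U).Nonempty} (lsc_hit A b U hU)
    convert h1 using 1
    ext q
    constructor
    · rintro ⟨x, hx, hxU⟩
      obtain ⟨w, hw, hxw⟩ := mem_iUnion₂.1 hx
      exact ⟨w, hw, x, hxw, hxU⟩
    · rintro ⟨w, hw, x, hxw, hxU⟩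
      exact ⟨x, mem_iUnion₂.2 ⟨w, hw, hxw⟩, hxU⟩)
  have hR : ∀ q, F q = b → none ∈ ψ q := by
    intro q hq
    obtain ⟨w, hw, hx⟩ := mem_iUnion₂.1 (hFψ q)
    cases w with
    | none => exact hw
    | some i =>
      rw [hq] at hx
      exact absurd hx (hb i)
  have hm : ∀ r : {q : ℚ // F q ≠ b}, ∃ m, some m ∈ ψ r.1 ∧ F r.1 ∈ A m := by
    intro r
    obtain ⟨w, hw, hx⟩ := mem_iUnion₂.1 (hFψ r.1)
    cases w with
    | none => exact absurd hx r.2
    | some i => exact ⟨i, hw, hx⟩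
  choose m hm1 hm2 using hm
  have hRo : IsOpen {q : ℚ | F q ≠ b} := isOpen_compl_singleton.preimage hF
  have hO : ∀ r : {q : ℚ // F q ≠ b}, ∃ C : Set ℚ, IsClopen C ∧ r.1 ∈ C ∧
      C ⊆ {q | some (m r) ∈ ψ q} ∩ ({q | F q ≠ b} ∩
        {q | ∀ p, F p = b → 2 * dist q r.1 ≤ dist r.1 p}) := by
    intro r
    refine exists_clopen (Filter.inter_mem ?_ (Filter.inter_mem (hRo.mem_nhds r.2) ?_))
    · have h1 := hl {some (m r)} (isOpen_singleton_pt (by simp))
      refine Filter.mem_of_superset (h1.mem_nhds ⟨some (m r), hm1 r, rfl⟩) fun q hq => ?_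
      obtain ⟨w, hw1, hw2⟩ := hq
      rw [mem_singleton_iff.1 hw2] at hw1
      exact hw1
    · obtain ⟨ε, hε, hε2⟩ := Metric.isOpen_iff.1 hRo r.1 r.2
      refine Filter.mem_of_superset (Metric.ball_mem_nhds r.1 (half_pos hε)) fun q hq p hp => ?_
      rw [Metric.mem_ball] at hq
      have h1 : ε ≤ dist p r.1 := by
        by_contra h2
        exact hε2 (Metric.mem_ball.2 (not_le.1 h2)) hp
      rw [dist_comm r.1 p]
      linarith
  choose C hC1 hC2 hC3 using hO
  by_cases hne' : Nonempty {q : ℚ // F q ≠ b}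
  swap
  · refine ⟨fun _ => none, ?_, fun q => hR q ?_⟩
    · exact @continuous_const _ _ _ (pt (hitFilter A b)) _
    · by_contra h1
      exact hne' ⟨⟨q, h1⟩⟩
  obtain ⟨e, he⟩ := exists_surjective_nat {q : ℚ // F q ≠ b}
  have hex : ∀ q, F q ≠ b → ∃ n, q ∈ C (e n) := by
    intro q hq
    obtain ⟨n, hn⟩ := he ⟨q, hq⟩
    exact ⟨n, by rw [hn]; exact hC2 _⟩
  let f : ℚ → Option M := fun q => if hq : F q ≠ b then some (m (e (Nat.find (hex q hq)))) else none
  have hf1 : ∀ q (hq : F q ≠ b), f q = some (m (e (Nat.find (hex q hq)))) := fun q hq => dif_pos hq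
  have hf2 : ∀ q, F q = b → f q = none := fun q hq => dif_neg (fun h1 => h1 hq)
  refine ⟨f, ?_, fun q => ?_⟩
  · let _ : TopologicalSpace (Option M) := pt (hitFilter A b)
    rw [continuous_iff_continuousAt]
    intro q
    rw [ContinuousAt, Filter.tendsto_def]
    intro V hV
    by_cases hq : F q = b
    · rw [hf2 q hq] at hV
      obtain ⟨hV0, hV1⟩ := mem_nhds_pt.1 hV
      obtain ⟨U, hU, hU2⟩ := mem_hitFilter.1 hV1
      have h1 : F ⁻¹' U ∈ 𝓝 q := hF.continuousAt.preimage_mem_nhds (by rwa [hq])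
      obtain ⟨ε, hε, hε2⟩ := Metric.mem_nhds_iff.1 h1
      refine Filter.mem_of_superset (Metric.ball_mem_nhds q (half_pos hε)) fun q' hq' => ?_
      by_cases h2 : F q' = b
      · show f q' ∈ V
        rw [hf2 q' h2]
        exact hV0
      · show f q' ∈ V
        rw [hf1 q' h2]
        have h3 := Nat.find_spec (hex q' h2)
        generalize Nat.find (hex q' h2) = n at h3
        obtain ⟨-, -, h4⟩ := hC3 _ h3
        have h5 := h4 q hq
        rw [Metric.mem_ball] at hq'
        have h6 := dist_triangle (e n).1 q' q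
        rw [dist_comm (e n).1 q'] at h6
        refine hU2 _ ⟨F (e n).1, hm2 _, hε2 ?_⟩
        rw [Metric.mem_ball]
        linarith
    · rw [hf1 q hq] at hV
      have h3 := Nat.find_spec (hex q hq)
      have h4 : ∀ k < Nat.find (hex q hq), q ∉ C (e k) := fun k hk => Nat.find_min (hex q hq) hk
      generalize hn : Nat.find (hex q hq) = n at h3 h4 hV
      have h5 : ∀ᶠ q' in 𝓝 q, ∀ k ∈ Finset.range n, q' ∉ C (e k) := by
        rw [Filter.eventually_all_finset]
        intro k hk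
        exact (hC1 _).isClosed.isOpen_compl.mem_nhds (h4 k (Finset.mem_range.1 hk))
      filter_upwards [(hC1 (e n)).isOpen.mem_nhds h3, h5] with q' g1 g2
      have h6 : F q' ≠ b := (hC3 _ g1).2.1
      have h7 : Nat.find (hex q' h6) = n := by
        rw [Nat.find_eq_iff]
        exact ⟨g1, fun k hk => g2 k (Finset.mem_range.2 hk)⟩
      show f q' ∈ V
      rw [hf1 q' h6, h7]
      exact mem_of_mem_nhds hV
  · by_cases hq : F q = b
    · rw [hf2 q hq]
      exact hR q hq
    · rw [hf1 q hq]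
      exact (hC3 _ (Nat.find_spec (hex q hq))).1

end Pool.Agent.Sel
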