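import Pool.Agent.H.MP_b7496a_gt.Point

/-! # Selections and hit filters -/

set_option autoImplicit false

open Topology Filter Set

namespace Pool.Agent.Sel

universe u

variable {X : Type u} [TopologicalSpace X]

theorem compl_mem_hitFilter {I : Type} {B : I → Set X} {b : X} {i : I} (hB : IsClosed (B i))
    (hb : b ∉ B i) : {i}ᶜ ∈ hitFilter B b := by
  refine mem_hitFilter.2 ⟨(B i)ᶜ, hB.isOpen_compl.mem_nhds hb, fun j hj h => ?_⟩
  rw [mem_singleton_iff.1 h] at hj
  obtain ⟨x, hx1, hx2⟩ := hj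
  exact hx2 hx1

theorem lsc_hit {I : Type} (B : I → Set X) (b : X) :
    @LSC (Option I) X (pt (hitFilter B b)) _ (fun w => w.elim {b} B) := by
  intro U hU
  show IsOpen[pt (hitFilter B b)] _
  rw [isOpen_pt]
  rintro ⟨x, hx, hxU⟩
  have hx' : x = b := hx
  rw [hx'] at hxU
  exact mem_hitFilter.2 ⟨U, hU.mem_nhds hxU, fun i hi => hi⟩

/-- Hit filters in a `C`-selective space, for nonempty sets which do not contain `b`. -/
theorem CSelective.hit_aux [T1Space X] (h : CSelective X) {M : Type} [Countable M] {A : M → Set X}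
    (hA : ∀ i, IsClosed (A i)) {b : X} (hb : ∀ i, b ∉ A i) (hne : ∀ i, (A i).Nonempty) :
    (hitFilter A b).IsCountablyGenerated := by
  classical
  by_cases hbot : hitFilter A b = ⊥
  · rw [hbot]
    infer_instance
  have hB : ∀ p : M × M, IsClosed (A p.1 ∪ A p.2) := fun p => (hA p.1).union (hA p.2)
  let _ : TopologicalSpace (Option (M × M)) := pt (hitFilter (fun p : M × M => A p.1 ∪ A p.2) b)
  have _ : T3Space (Option (M × M)) := t3_pt fun p => compl_mem_hitFilter (hB p) (by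
    rintro (h1 | h1)
    · exact hb _ h1
    · exact hb _ h1)
  obtain ⟨f, hf, hfφ⟩ := h (Option (M × M)) (fun w => w.elim {b} fun p => A p.1 ∪ A p.2) (by
    intro w
    cases w with
    | none => exact ⟨isClosed_singleton, singleton_nonempty b⟩
    | some p => exact ⟨hB p, (hne p.1).mono subset_union_left⟩) (lsc_hit _ b)
  have hfn : f none = b := hfφ none
  have hfs : ∀ n m, f (some (n, m)) ∈ A n ∪ A m := fun n m => hfφ (some (n, m))
  have hcont : ∀ U ∈ 𝓝 b, ∃ V ∈ 𝓝 b, ∀ n m, ((A n ∪ A m) ∩ V).Nonempty →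
      f (some (n, m)) ∈ U := by
    intro U hU
    have h1 : f ⁻¹' U ∈ 𝓝 (none : Option (M × M)) := hf.continuousAt.preimage_mem_nhds (by rwa [hfn])
    obtain ⟨V, hV, hV2⟩ := mem_hitFilter.1 (mem_nhds_pt.1 h1).2
    exact ⟨V, hV, fun n m hnm => hV2 (n, m) hnm⟩
  have hbasis : (hitFilter A b).HasBasis (fun _ : M => True)
      (fun m => {n | f (some (n, m)) ∉ A m}) := by
    refine ⟨fun N => ⟨fun hN => ?_, ?_⟩⟩
    · obtain ⟨U, hU, hU2⟩ := mem_hitFilter.1 hN
      obtain ⟨V, hV, hV2⟩ := hcont U hU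
      by_cases hm : ∃ m, (A m ∩ V).Nonempty
      · obtain ⟨m, hm⟩ := hm
        refine ⟨m, trivial, fun n hn => ?_⟩
        have h1 : f (some (n, m)) ∈ U :=
          hV2 n m (hm.mono (inter_subset_inter_left _ subset_union_right))
        exact hU2 n ⟨_, (hfs n m).resolve_right hn, h1⟩
      · exfalso
        apply hbot
        rw [← Filter.empty_mem_iff_bot]
        exact mem_hitFilter.2 ⟨V, hV, fun i hi => hm ⟨i, hi⟩⟩
    · rintro ⟨m, -, hm⟩
      refine Filter.mem_of_superset ?_ hm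
      obtain ⟨V, hV, hV2⟩ := hcont (A m)ᶜ ((hA m).isOpen_compl.mem_nhds (hb m))
      exact mem_hitFilter.2 ⟨V, hV, fun n hn =>
        hV2 n m (hn.mono (inter_subset_inter_left _ subset_union_left))⟩
  exact HasCountableBasis.isCountablyGenerated ⟨hbasis, Set.to_countable _⟩

/-- The hit filter in terms of the sets which do not contain `b`. -/
theorem hitFilter_eq {I : Type} (A : I → Set X) (b : X) :
    hitFilter A b = (hitFilter (fun i : {i // b ∉ A i ∧ (A i).Nonempty} => A i.1) b).map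
      Subtype.val ⊔ 𝓟 {i | b ∈ A i} := by
  ext N
  rw [Filter.mem_sup, Filter.mem_map, Filter.mem_principal, mem_hitFilter, mem_hitFilter]
  constructor
  · rintro ⟨U, hU, hU2⟩
    exact ⟨⟨U, hU, fun i hi => hU2 i.1 hi⟩, fun i hi => hU2 i ⟨b, hi, mem_of_mem_nhds hU⟩⟩
  · rintro ⟨⟨U, hU, hU2⟩, h2⟩
    refine ⟨U, hU, fun i hi => ?_⟩
    by_cases h : b ∈ A i
    · exact h2 h
    · exact hU2 ⟨i, h, hi.mono inter_subset_left⟩ hi

/-- Hit filters in a `C`-selective space are countably generated. -/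
theorem CSelective.hit [T1Space X] (h : CSelective X) {I : Type} [Countable I] {A : I → Set X}
    (hA : ∀ i, IsClosed (A i)) (b : X) : (hitFilter A b).IsCountablyGenerated := by
  have h1 : (hitFilter (fun i : {i // b ∉ A i ∧ (A i).Nonempty} => A i.1)
      b).IsCountablyGenerated :=
    h.hit_aux (M := {i // b ∉ A i ∧ (A i).Nonempty}) (fun i => hA i.1) (fun i => i.2.1)
      fun i => i.2.2
  rw [hitFilter_eq]
  infer_instance

theorem CSelective.qSelective (h : CSelective X) : QSelective X := h ℚ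

theorem hitFilter_surj {I J : Type} {e : J → I} (he : Function.Surjective e) (A : I → Set X)
    (b : X) : hitFilter A b = (hitFilter (fun j => A (e j)) b).map e := by
  ext N
  rw [Filter.mem_map, mem_hitFilter, mem_hitFilter]
  constructor
  · rintro ⟨U, hU, hU2⟩
    exact ⟨U, hU, fun j hj => hU2 (e j) hj⟩
  · rintro ⟨U, hU, hU2⟩
    refine ⟨U, hU, fun i hi => ?_⟩
    obtain ⟨j, rfl⟩ := he i
    exact hU2 j hi

/-- A `ℚ`-selective space whose hit filters are countably generated is `C`-selective. -/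
theorem QSelective.cSelective [T1Space X] (h : QSelective X)
    (hc : ∀ A : ℕ → Set X, (∀ n, IsClosed (A n)) → ∀ b, (hitFilter A b).IsCountablyGenerated) :
    CSelective X := by
  classical
  intro Y _ _ _ φ hφ hl
  by_cases hY : Nonempty Y
  swap
  · have hY' : IsEmpty Y := not_nonempty_iff.1 hY
    exact ⟨fun y => hY'.elim y, continuous_of_const fun y => hY'.elim y, fun y => hY'.elim y⟩
  obtain ⟨e, he⟩ := exists_surjective_nat Y
  have hcg : ∀ b, (hitFilter φ b).IsCountablyGenerated := by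
    intro b
    have h1 := hc (fun n => φ (e n)) (fun n => (hφ _).1) b
    rw [hitFilter_surj he]
    infer_instance
  have hE : ∀ b, ∃ E : ℕ → Set Y, (hitFilter φ b).HasAntitoneBasis E := by
    intro b
    have := hcg b
    exact (hitFilter φ b).exists_antitone_basis
  choose E hE using hE
  have hg : ∀ b, ∃ g : Y → X, (∀ z, g z ∈ φ z) ∧
      ∀ U ∈ 𝓝 b, ∃ n, ∃ F : Finset Y, ∀ z ∈ E b n, z ∉ F → g z ∈ U := by
    intro b
    refine h.seq (fun z => hφ z) (hE b).2 fun U hU => ?_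
    obtain ⟨n, -, hn⟩ := (hE b).1.mem_iff.1
      (show {z | (φ z ∩ U).Nonempty} ∈ hitFilter φ b from mem_hitFilter.2 ⟨U, hU, fun _ h => h⟩)
    exact ⟨n, ∅, fun z hz _ => hn hz⟩
  choose g hg1 hg2 using hg
  obtain ⟨y0⟩ := hY
  obtain ⟨b0, -⟩ := (hφ y0).2
  -- the countable set of values
  let S : List Y → X := fun l => List.rec b0 (fun z _ x => g x z) l
  have hS : ∀ z l, S (z :: l) = g (S l) z := fun _ _ => rfl
  have hEy : ∀ y l n, S l ∈ φ y → E (S l) n ∈ 𝓝 y := by
    intro y l n hy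
    obtain ⟨U, hU, hU2⟩ := mem_hitFilter.1 ((hE (S l)).1.mem_of_mem (i := n) trivial)
    have h1 : {z | (φ z ∩ interior U).Nonempty} ∈ 𝓝 y :=
      (hl _ isOpen_interior).mem_nhds ⟨S l, hy, mem_interior_iff_mem_nhds.2 hU⟩
    exact Filter.mem_of_superset h1 fun z hz =>
      hU2 z (hz.mono (inter_subset_inter_right _ interior_subset))
  have hC : ∀ j : Y × List Y × ℕ × Finset Y, ∃ C, IsClopen C ∧ j.1 ∈ C ∧
      (S j.2.1 ∈ φ j.1 → C ⊆ {z | z ∈ E (S j.2.1) j.2.2.1 ∧ (z ∈ j.2.2.2 → z = j.1)}) := by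
    intro j
    by_cases hj : S j.2.1 ∈ φ j.1
    · obtain ⟨C, hC1, hC2, hC3⟩ := exists_clopen (y := j.1)
        (O := {z | z ∈ E (S j.2.1) j.2.2.1 ∧ (z ∈ j.2.2.2 → z = j.1)}) (by
          refine Filter.inter_mem (hEy _ _ _ hj) ?_
          have h1 : ((↑j.2.2.2 \ {j.1} : Set Y))ᶜ ∈ 𝓝 j.1 := by
            refine (j.2.2.2.finite_toSet.subset sdiff_subset).isClosed.isOpen_compl.mem_nhds ?_
            exact fun h => h.2 rfl
          refine Filter.mem_of_superset h1 fun z hz hz2 => ?_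
          by_contra h2
          exact hz ⟨hz2, h2⟩)
      exact ⟨C, hC1, hC2, fun _ => hC3⟩
    · exact ⟨univ, isClopen_univ, mem_univ _, fun h => absurd h hj⟩
  choose C hC1 hC2 hC3 using hC
  have hsec : ∀ y, S [y] ∈ φ y := fun y => hg1 _ _
  have hsep : ∀ w w', (∀ j, w ∈ C j ↔ w' ∈ C j) → w = w' := by
    intro w w' hw
    have h1 := (hw (w, [w], 0, {w'})).1 (hC2 _)
    exact ((hC3 (w, [w], 0, {w'}) (hsec w) h1).2 (Finset.mem_singleton_self _)).symm
  let ψ : Y → Set X := fun y => closure {x | x ∈ φ y ∧ ∃ l, S l = x}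
  have hψφ : ∀ y, ψ y ⊆ φ y := fun y => (hφ y).1.closure_subset_iff.2 fun x hx => hx.1
  obtain ⟨f, hf, hfψ⟩ := h.topOf C hsep ψ (fun y => ⟨isClosed_closure,
    ⟨S [y], subset_closure ⟨hsec y, [y], rfl⟩⟩⟩) (by
      let _ : TopologicalSpace Y := Sel.topOf C
      intro U hU
      rw [isOpen_iff_mem_nhds]
      rintro y ⟨x, hx, hxU⟩
      obtain ⟨b, hbU, hbφ, l, rfl⟩ := mem_closure_iff.1 hx U hU hxU
      obtain ⟨n, F, hF⟩ := hg2 (S l) U (hU.mem_nhds hbU)
      rw [show (_ ∈ 𝓝 y) ↔ _ from mem_nhds_topOf (C := C)]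
      refine ⟨{(y, l, n, F)}, fun w' hw' => ?_⟩
      have h1 : w' ∈ C (y, l, n, F) := (hw' _ (Finset.mem_singleton_self _)).2 (hC2 _)
      obtain ⟨h2, h3⟩ := hC3 (y, l, n, F) hbφ h1
      by_cases h4 : w' ∈ F
      · have h5 : w' = y := h3 h4
        rw [h5]
        exact ⟨x, hx, hxU⟩
      · exact ⟨g (S l) w', subset_closure ⟨hg1 _ _, w' :: l, rfl⟩, hF w' h2 h4⟩)
  refine ⟨f, ?_, fun y => hψφ y (hfψ y)⟩
  rw [continuous_def] at hf ⊢
  intro U hU
  have h1 := hf U hU
  rw [isOpen_iff_mem_nhds]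
  intro y hy
  have h2 : f ⁻¹' U ∈ @nhds Y (Sel.topOf C) y := by
    let _ : TopologicalSpace Y := Sel.topOf C
    exact h1.mem_nhds hy
  obtain ⟨J, hJ⟩ := mem_nhds_topOf.1 h2
  have h3 : ∀ᶠ w in 𝓝 y, ∀ j ∈ J, (w ∈ C j ↔ y ∈ C j) := by
    rw [Filter.eventually_all_finset]
    intro j _
    by_cases hj : y ∈ C j
    · filter_upwards [(hC1 j).isOpen.mem_nhds hj] with w hw
      exact ⟨fun _ => hj, fun _ => hw⟩
    · filter_upwards [(hC1 j).isClosed.isOpen_compl.mem_nhds hj] with w hw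
      exact ⟨fun h => absurd h hw, fun h => absurd h hj⟩
  exact Filter.mem_of_superset h3 fun w hw => hJ w hw

end Pool.Agent.Sel
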