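import Pool.Agent.H.MP_b7496a_gt.Sel

/-! # Selections into first countable spaces (Michael) -/

set_option autoImplicit false

open Topology Filter Set

namespace Pool.Agent.Sel

universe u

/-- A countable regular space is zero-dimensional. -/
theorem exists_clopen {Y : Type} [TopologicalSpace Y] [T3Space Y] [Countable Y] {y : Y} {O : Set Y}
    (hO : O ∈ 𝓝 y) : ∃ C, IsClopen C ∧ y ∈ C ∧ C ⊆ O := by
  obtain ⟨V, hVO, hV, hyV⟩ := mem_nhds_iff.1 hO
  have : NormalSpace Y := NormalSpace.of_regularSpace_lindelofSpace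
  obtain ⟨f, hf0, hf1, -⟩ := exists_continuous_zero_one_of_isClosed (isClosed_singleton (x := y))
    hV.isClosed_compl (by
      rw [Set.disjoint_left]
      intro z hz h2
      exact h2 (by rw [mem_singleton_iff.1 hz]; exact hyV))
  obtain ⟨t, ht, ht1, ht2⟩ := ((countable_range f).dense_compl ℝ).exists_between
    (show (0 : ℝ) < 1 from one_pos)
  have h1 : f ⁻¹' Iio t = f ⁻¹' Iic t := by
    ext z
    constructor
    · intro h
      have h2 : f z < t := h
      exact h2.le
    · intro h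
      have h2 : f z ≤ t := h
      exact lt_of_le_of_ne h2 fun h3 => ht ⟨z, h3⟩
  refine ⟨f ⁻¹' Iio t, ⟨?_, isOpen_Iio.preimage f.continuous⟩, ?_, ?_⟩
  · rw [h1]
    exact isClosed_Iic.preimage f.continuous
  · show f y < t
    rw [hf0 (mem_singleton y)]
    exact ht1
  · intro z hz
    by_contra h
    have h2 : f z = 1 := hf1 (fun h3 => h (hVO h3))
    have h3 : f z < t := hz
    rw [h2] at h3
    exact absurd h3 (not_lt.2 ht2.le)

section stage

variable {Y : Type} [TopologicalSpace Y] {X : Type u} [TopologicalSpace X]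

/-- A stage of the construction of a selection: the values at the points of the finite set `D` are
chosen, and the values at the other points `z` are to be chosen in `U z`. -/
structure Stage (φ : Y → Set X) where
  D : Set Y
  f : Y → X
  U : Y → Set X
  fin : D.Finite
  isOpen : ∀ z, z ∉ D → IsOpen (U z)
  ne : ∀ z, z ∉ D → (φ z ∩ U z).Nonempty
  loc : ∀ z, z ∉ D → ∀ᶠ z' in 𝓝 z, U z' = U z
  mem : ∀ z, z ∈ D → f z ∈ φ z
  tend : ∀ z, z ∈ D → ∀ V ∈ 𝓝 (f z), ∀ᶠ z' in 𝓝 z, z' ∉ D → U z' ⊆ V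

/-- `s'` extends `s`. -/
def Ext {φ : Y → Set X} (s s' : Stage φ) : Prop :=
  s.D ⊆ s'.D ∧ (∀ z ∈ s.D, s'.f z = s.f z) ∧ (∀ z, z ∉ s'.D → s'.U z ⊆ s.U z) ∧
    ∀ z ∈ s'.D, z ∉ s.D → s'.f z ∈ s.U z

theorem Ext.refl {φ : Y → Set X} (s : Stage φ) : Ext s s :=
  ⟨Subset.rfl, fun _ _ => rfl, fun _ _ => Subset.rfl, fun _ h h' => absurd h h'⟩

theorem Ext.trans {φ : Y → Set X} {s s' s'' : Stage φ} (h : Ext s s') (h' : Ext s' s'') :
    Ext s s'' := by
  refine ⟨h.1.trans h'.1, fun z hz => ?_, fun z hz => ?_, fun z hz hz' => ?_⟩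
  · rw [h'.2.1 z (h.1 hz), h.2.1 z hz]
  · exact (h'.2.2.1 z hz).trans (h.2.2.1 z fun h2 => hz (h'.1 h2))
  · by_cases h2 : z ∈ s'.D
    · rw [h'.2.1 z h2]
      exact h.2.2.2 z h2 hz'
    · exact h.2.2.1 z h2 (h'.2.2.2 z hz h2)

/-- One step. -/
theorem Stage.step [T3Space Y] [Countable Y] [FirstCountableTopology X] {φ : Y → Set X}
    (hl : LSC φ) (s : Stage φ) (y : Y) : ∃ s' : Stage φ, Ext s s' ∧ y ∈ s'.D := by
  classical
  by_cases hy : y ∈ s.D
  · exact ⟨s, Ext.refl s, hy⟩
  obtain ⟨x, hx1, hx2⟩ := s.ne y hy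
  obtain ⟨B, hB⟩ := (𝓝 x).exists_antitone_basis
  obtain ⟨O, hO, hyO, hOs⟩ := exists_clopen (y := y) (O := {z | s.U z = s.U y} ∩ s.Dᶜ)
    (Filter.inter_mem (s.loc y hy) (s.fin.isClosed.isOpen_compl.mem_nhds hy))
  have : Nonempty Y := ⟨y⟩
  obtain ⟨e, he⟩ := exists_surjective_nat Y
  have hBo : ∀ k, x ∈ interior (B k) := fun k => mem_interior_iff_mem_nhds.2 (hB.1.mem_of_mem trivial)
  have hBa : ∀ i k, i ≤ k → interior (B k) ⊆ interior (B i) := fun i k h =>
    interior_mono (hB.2 h)
  have hC : ∀ k, ∃ C, IsClopen C ∧ y ∈ C ∧ C ⊆ {z | (φ z ∩ (s.U y ∩ interior (B k))).Nonempty} ∩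
      {z | z = e k → z = y} := by
    intro k
    refine exists_clopen (Filter.inter_mem ?_ ?_)
    · exact (hl _ ((s.isOpen y hy).inter isOpen_interior)).mem_nhds ⟨x, hx1, hx2, hBo k⟩
    · by_cases h : e k = y
      · refine Filter.mem_of_superset Filter.univ_mem fun z _ h2 => ?_
        rw [h2, h]
      · have h1 : ({e k}ᶜ : Set Y) ∈ 𝓝 y := isOpen_compl_singleton.mem_nhds (Ne.symm h)
        exact Filter.mem_of_superset h1 fun z hz h2 => absurd h2 hz
  choose C hCc hyC hCs using hC
  have hex : ∀ z, z ≠ y → ∃ k, z ∉ C k := by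
    intro z hz
    obtain ⟨k, hk⟩ := he z
    exact ⟨k, fun h => hz ((hCs k h).2 hk.symm)⟩
  -- the new sets
  let U' : Y → Set X := fun z => if z ∈ O then {w | w ∈ s.U y ∧ ∀ i, (∀ j ≤ i, z ∈ C j) →
    w ∈ interior (B i)} else s.U z
  have hU1 : ∀ z, z ∉ O → U' z = s.U z := fun z hz => if_neg hz
  have hU2 : ∀ z, z ∈ O → U' z = {w | w ∈ s.U y ∧ ∀ i, (∀ j ≤ i, z ∈ C j) →
    w ∈ interior (B i)} := fun z hz => if_pos hz
  -- description at a point of `O` other than `y`
  have hU3 : ∀ z, z ≠ y → z ∈ O → ∃ V : Set X, IsOpen V ∧ (φ z ∩ V).Nonempty ∧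
      ∀ᶠ z' in 𝓝 z, U' z' = V := by
    intro z hz hzO
    let m := Nat.find (hex z hz)
    have hm : z ∉ C m := Nat.find_spec (hex z hz)
    have hm2 : ∀ j < m, z ∈ C j := fun j hj => not_not.1 (Nat.find_min (hex z hz) hj)
    refine ⟨s.U y ∩ ⋂ i ∈ Finset.range m, interior (B i), ?_, ?_, ?_⟩
    · exact (s.isOpen y hy).inter (isOpen_biInter_finset fun i _ => isOpen_interior)
    · have hUz : s.U z = s.U y := (hOs hzO).1
      rcases Nat.eq_zero_or_pos m with h0 | h0
      · obtain ⟨w, hw1, hw2⟩ := s.ne z (hOs hzO).2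
        refine ⟨w, hw1, ?_, ?_⟩
        · rw [← hUz]
          exact hw2
        · rw [h0]
          simp
      · obtain ⟨w, hw1, hw2, hw3⟩ := (hCs (m - 1) (hm2 (m - 1) (by omega))).1
        refine ⟨w, hw1, hw2, ?_⟩
        simp only [mem_iInter, Finset.mem_range]
        intro i hi
        exact hBa i (m - 1) (by omega) hw3
    · have h1 : ∀ᶠ z' in 𝓝 z, z' ∈ O := hO.isOpen.mem_nhds hzO
      have h2 : ∀ᶠ z' in 𝓝 z, z' ∉ C m := (hCc m).isClosed.isOpen_compl.mem_nhds hm
      have h3 : ∀ᶠ z' in 𝓝 z, ∀ j ∈ Finset.range m, z' ∈ C j := by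
        rw [Filter.eventually_all_finset]
        intro j hj
        exact (hCc j).isOpen.mem_nhds (hm2 j (Finset.mem_range.1 hj))
      filter_upwards [h1, h2, h3] with z' g1 g2 g3
      rw [hU2 z' g1]
      ext w
      simp only [mem_ofPred_eq, mem_inter_iff, mem_iInter, Finset.mem_range]
      constructor
      · rintro ⟨h4, h5⟩
        exact ⟨h4, fun i hi => h5 i fun j hj => g3 j (Finset.mem_range.2 (by omega))⟩
      · rintro ⟨h4, h5⟩
        refine ⟨h4, fun i hi => h5 i ?_⟩
        by_contra h6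
        exact g2 (hi m (by omega))
  have hD : ∀ z, z ∉ insert y s.D → z ≠ y ∧ z ∉ s.D := by
    intro z hz
    exact ⟨fun h => hz (by rw [h]; exact mem_insert _ _), fun h => hz (mem_insert_of_mem _ h)⟩
  have hOD : ∀ z ∈ s.D, z ∉ O := fun z hz h => (hOs h).2 hz
  refine ⟨{ D := insert y s.D
            f := fun z => if z = y then x else s.f z
            U := U'
            fin := s.fin.insert y
            isOpen := ?_
            ne := ?_
            loc := ?_
            mem := ?_
            tend := ?_ }, ⟨subset_insert _ _, ?_, ?_, ?_⟩, mem_insert _ _⟩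
  · intro z hz
    by_cases h : z ∈ O
    · obtain ⟨V, hV, -, h3⟩ := hU3 z (hD z hz).1 h
      rw [h3.self_of_nhds]
      exact hV
    · rw [hU1 z h]
      exact s.isOpen z (hD z hz).2
  · intro z hz
    by_cases h : z ∈ O
    · obtain ⟨V, -, hV, h3⟩ := hU3 z (hD z hz).1 h
      rw [h3.self_of_nhds]
      exact hV
    · rw [hU1 z h]
      exact s.ne z (hD z hz).2
  · intro z hz
    by_cases h : z ∈ O
    · obtain ⟨V, -, -, h3⟩ := hU3 z (hD z hz).1 h
      rw [h3.self_of_nhds]
      exact h3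
    · have h1 : ∀ᶠ z' in 𝓝 z, z' ∉ O := hO.isClosed.isOpen_compl.mem_nhds h
      filter_upwards [h1, s.loc z (hD z hz).2] with z' g1 g2
      rw [hU1 z' g1, hU1 z h, g2]
  · intro z hz
    show (if z = y then x else s.f z) ∈ φ z
    by_cases h : z = y
    · rw [if_pos h, h]
      exact hx1
    · rw [if_neg h]
      exact s.mem z (hz.resolve_left h)
  · intro z hz V hV
    by_cases h : z = y
    · rw [h] at hV ⊢
      have hV' : V ∈ 𝓝 x := by
        have h4 : (if y = y then x else s.f y) = x := if_pos rfl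
        rwa [h4] at hV
      obtain ⟨k, -, hk⟩ := hB.1.mem_iff.1 hV'
      have h1 : ∀ᶠ z' in 𝓝 y, z' ∈ O := hO.isOpen.mem_nhds hyO
      have h3 : ∀ᶠ z' in 𝓝 y, ∀ j ∈ Finset.range (k + 1), z' ∈ C j := by
        rw [Filter.eventually_all_finset]
        intro j _
        exact (hCc j).isOpen.mem_nhds (hyC j)
      filter_upwards [h1, h3] with z' g1 g3 _
      rw [hU2 z' g1]
      rintro w ⟨-, hw⟩
      exact hk (interior_subset (hw k fun j hj => g3 j (Finset.mem_range.2 (by omega))))
    · have hzD : z ∈ s.D := hz.resolve_left h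
      have h4 : (if z = y then x else s.f z) = s.f z := if_neg h
      have hV' : V ∈ 𝓝 (s.f z) := by rwa [h4] at hV
      have h1 : ∀ᶠ z' in 𝓝 z, z' ∉ O := hO.isClosed.isOpen_compl.mem_nhds (hOD z hzD)
      filter_upwards [h1, s.tend z hzD V hV'] with z' g1 g2 g3
      rw [hU1 z' g1]
      exact g2 (hD z' g3).2
  · intro z hz
    show (if z = y then x else s.f z) = s.f z
    rw [if_neg]
    intro h
    exact hy (h ▸ hz)
  · intro z hz
    show U' z ⊆ s.U z
    by_cases h : z ∈ O
    · rw [hU2 z h, show s.U z = s.U y from (hOs h).1]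
      exact fun w hw => hw.1
    · rw [hU1 z h]
  · intro z hz hz'
    show (if z = y then x else s.f z) ∈ s.U z
    have h : z = y := by
      rcases hz with h | h
      · exact h
      · exact absurd h hz'
    rw [if_pos h, h]
    exact hx2

end stage

/-- A lower semicontinuous map with nonempty values, from a countable regular space to a first
countable space, has a continuous selection (E. Michael). -/
theorem exists_selection {Y : Type} [TopologicalSpace Y] [T3Space Y] [Countable Y] {X : Type u}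
    [TopologicalSpace X] [FirstCountableTopology X] {φ : Y → Set X} (hne : ∀ y, (φ y).Nonempty)
    (hl : LSC φ) : ∃ f : Y → X, Continuous f ∧ ∀ y, f y ∈ φ y := by
  classical
  by_cases hY : Nonempty Y
  swap
  · have hY' : IsEmpty Y := not_nonempty_iff.1 hY
    exact ⟨fun y => hY'.elim y, continuous_of_const fun y => hY'.elim y, fun y => hY'.elim y⟩
  obtain ⟨e, he⟩ := exists_surjective_nat Y
  let s0 : Stage φ :=
    { D := ∅
      f := fun z => (hne z).some
      U := fun _ => univ
      fin := finite_empty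
      isOpen := fun _ _ => isOpen_univ
      ne := fun z _ => by rw [inter_univ]; exact hne z
      loc := fun _ _ => Filter.Eventually.of_forall fun _ => rfl
      mem := fun z hz => hz.elim
      tend := fun z hz => hz.elim }
  choose nx hnx1 hnx2 using fun (s : Stage φ) (y : Y) => s.step hl y
  let S : ℕ → Stage φ := fun n => Nat.rec s0 (fun n s => nx s (e n)) n
  have hS : ∀ n, S (n + 1) = nx (S n) (e n) := fun n => rfl
  have hext : ∀ n m, n ≤ m → Ext (S n) (S m) := by
    intro n m h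
    induction m, h using Nat.le_induction with
    | base => exact Ext.refl _
    | succ m _ ih => exact ih.trans (by rw [hS]; exact hnx1 _ _)
  have hD : ∀ z, ∃ n, z ∈ (S n).D := by
    intro z
    obtain ⟨n, hn⟩ := he z
    exact ⟨n + 1, by rw [hS, hn]; exact hnx2 _ _⟩
  choose N hN using hD
  let f : Y → X := fun z => (S (N z)).f z
  have hf : ∀ n z, z ∈ (S n).D → f z = (S n).f z := by
    intro n z hz
    rcases le_total n (N z) with h | h
    · exact (hext n (N z) h).2.1 z hz
    · exact ((hext (N z) n h).2.1 z (hN z)).symm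
  refine ⟨f, ?_, fun z => (S (N z)).mem z (hN z)⟩
  rw [continuous_iff_continuousAt]
  intro z
  rw [ContinuousAt, Filter.tendsto_def]
  intro V hV
  have h1 := (S (N z)).tend z (hN z) V hV
  have h2 : ∀ᶠ z' in 𝓝 z, z' ∈ (S (N z)).D → z' = z := by
    have h3 : ((S (N z)).D \ {z})ᶜ ∈ 𝓝 z := by
      refine ((S (N z)).fin.subset sdiff_subset).isClosed.isOpen_compl.mem_nhds ?_
      exact fun h => h.2 rfl
    filter_upwards [h3] with z' hz' hz''
    by_contra h4
    exact hz' ⟨hz'', h4⟩
  filter_upwards [h1, h2] with z' g1 g2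
  show f z' ∈ V
  by_cases h : z' ∈ (S (N z)).D
  · rw [g2 h]
    exact mem_of_mem_nhds hV
  · refine g1 h ?_
    have h3 : N z ≤ N z' := by
      by_contra h4
      push Not at h4
      exact h ((hext (N z') (N z) h4.le).1 (hN z'))
    exact (hext (N z) (N z') h3).2.2.2 z' (hN z') h

end Pool.Agent.Sel
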