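import Pool.Agent.H.MP_b7496a_gt.Chain

/-! # The recursion of length `ω₁` -/

set_option autoImplicit false

open Topology Filter Set

namespace Pool.Agent.Sel

universe u

/-- Recursion along a well-ordered set with countable initial segments. -/
theorem exists_chain {T : Type} [LinearOrder T] [WellFoundedLT T] (hT : ∀ a : T, (Iio a).Countable)
    (Q : T → Filter ℕ × Set (Set ℕ) → Prop)
    (hQ : ∀ a s, Good s → ∃ s', Good s' ∧ Le s s' ∧ s'.1 ≠ s.1 ∧ Q a s') :
    ∃ p : T → Filter ℕ × Set (Set ℕ), ∀ a, Good (p a) ∧ Q a (p a) ∧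
      ∀ b < a, Le (p b) (p a) ∧ (p a).1 ≠ (p b).1 := by
  classical
  obtain ⟨s0, hs0⟩ := exists_good
  let P : (a : T) → ((b : T) → b < a → Filter ℕ × Set (Set ℕ)) → Filter ℕ × Set (Set ℕ) → Prop :=
    fun a r x => Good x ∧ Q a x ∧ ∀ b (h : b < a), Le (r b h) x ∧ x.1 ≠ (r b h).1
  let F : (a : T) → ((b : T) → b < a → Filter ℕ × Set (Set ℕ)) → Filter ℕ × Set (Set ℕ) :=
    fun a r => if h : ∃ x, P a r x then h.choose else s0
  let p : T → Filter ℕ × Set (Set ℕ) := wellFounded_lt.fix F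
  have hp : ∀ a, p a = F a fun b _ => p b := fun a => wellFounded_lt.fix_eq F a
  refine ⟨p, fun a => ?_⟩
  refine WellFounded.induction (r := (· < ·)) wellFounded_lt (C := fun a => Good (p a) ∧
    Q a (p a) ∧ ∀ b < a, Le (p b) (p a) ∧ (p a).1 ≠ (p b).1) a ?_
  · intro a ih
    have hex : ∃ x, P a (fun b _ => p b) x := by
      obtain ⟨u, hu, hu2⟩ : ∃ u, Good u ∧ ∀ b < a, Le (p b) u := by
        by_cases hne : (Iio a).Nonempty
        · obtain ⟨u, hu, hu2⟩ := Good.sup (c := p '' Iio a) ((hT a).image p) (hne.image p) (by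
            rintro _ ⟨b, hb, rfl⟩
            exact (ih b hb).1) (by
            rintro _ ⟨b, hb, rfl⟩ _ ⟨b', hb', rfl⟩
            rcases lt_trichotomy b b' with h | h | h
            · exact Or.inl ((ih b' hb').2.2 b h).1
            · rw [h]
              exact Or.inl (Le.refl _)
            · exact Or.inr ((ih b hb).2.2 b' h).1)
          exact ⟨u, hu, fun b hb => hu2 _ ⟨b, hb, rfl⟩⟩
        · exact ⟨s0, hs0, fun b hb => absurd ⟨b, hb⟩ hne⟩
      obtain ⟨x, hx1, hx2, hx3, hx4⟩ := hQ a u hu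
      refine ⟨x, hx1, hx4, fun b hb => ⟨(hu2 b hb).trans hx2, fun h => hx3 ?_⟩⟩
      refine le_antisymm hx2.1 ?_
      rw [h]
      exact (hu2 b hb).1
    have h1 : p a = hex.choose := by
      rw [hp]
      exact dif_pos hex
    have h2 := hex.choose_spec
    rw [← h1] at h2
    exact h2

/-- A filter for `ℵ₁` set-valued maps. -/
theorem exists_filter {ι : Type} (hι : Cardinal.mk ι ≤ Cardinal.aleph 1) (Y : ι → Type)
    [∀ i, TopologicalSpace (Y i)] [∀ i, T3Space (Y i)] [∀ i, Countable (Y i)]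
    (ψ : ∀ i, Y i → Set (Option ℕ)) :
    ∃ H : Filter ℕ, H ≤ cofinite ∧ H.NeBot ∧ ¬ H.IsCountablyGenerated ∧
      ∀ i, (∀ y, (ψ i y).Nonempty) → @LSC (Y i) (Option ℕ) _ (pt H) (ψ i) →
        ∃ f : Y i → Option ℕ, @Continuous (Y i) (Option ℕ) _ (pt H) f ∧ ∀ y, f y ∈ ψ i y := by
  classical
  obtain ⟨T, hTo, hTw, hTc, hTu, hTm⟩ : ∃ (T : Type) (_ : LinearOrder T), WellFoundedLT T ∧
      (∀ a : T, (Iio a).Countable) ∧ Uncountable T ∧ Cardinal.mk T = Cardinal.aleph 1 := by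
    refine ⟨(Cardinal.aleph 1).ord.ToType, inferInstance, inferInstance, fun a => ?_, ?_,
      Cardinal.mk_ord_toType _⟩
    · rw [← Cardinal.le_aleph0_iff_set_countable, ← Cardinal.lt_aleph_one_iff]
      have h1 := Cardinal.mk_Iio_lt a (by
        rw [Cardinal.mk_ord_toType]
        exact (Ordinal.type_toType _).symm)
      rwa [Cardinal.mk_ord_toType] at h1
    · rw [← Cardinal.aleph0_lt_mk_iff, Cardinal.mk_ord_toType]
      exact Cardinal.aleph0_lt_aleph_one
  have hcof : ∀ g : ℕ → T, ∃ b, ∀ k, g k < b := by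
    intro g
    have h1 : (⋃ k, Iic (g k)).Countable := by
      refine countable_iUnion fun k => ?_
      rw [← Iio_insert]
      exact (hTc _).insert _
    obtain ⟨b, hb⟩ : ∃ b, b ∉ ⋃ k, Iic (g k) := by
      by_contra h2
      push Not at h2
      have h3 : (univ : Set T).Countable := h1.mono fun b _ => h2 b
      exact not_countable (Set.countable_univ_iff.1 h3)
    exact ⟨b, fun k => not_le.1 fun h => hb (mem_iUnion.2 ⟨k, h⟩)⟩
  obtain ⟨e⟩ : Nonempty (ι ↪ T) := by
    rw [← Cardinal.le_def, hTm]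
    exact hι
  obtain ⟨p, hp⟩ := exists_chain hTc
    (fun a s => ∀ i, e i = a → (∀ y, (ψ i y).Nonempty) → Done (ψ i) s) (by
      intro a s hs
      obtain ⟨s', h1, h2, h3⟩ := hs.grow
      by_cases hi : ∃ i, e i = a ∧ ∀ y, (ψ i y).Nonempty
      · obtain ⟨i, hi, hne⟩ := hi
        obtain ⟨s'', h4, h5, h6⟩ := h1.step hne
        refine ⟨s'', h4, h2.trans h5, fun h7 => h3 (le_antisymm h2.1 ?_), fun j hj _ => ?_⟩
        · rw [← h7]
          exact h5.1
        · have h8 : j = i := e.injective (hj.trans hi.symm)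
          rw [h8]
          exact h6
      · exact ⟨s', h1, h2, h3, fun i h4 h5 => absurd ⟨i, h4, h5⟩ hi⟩)
  have hT0 : Nonempty T := by
    by_contra h
    have : IsEmpty T := not_nonempty_iff.1 h
    exact not_countable (α := T) inferInstance
  have hle : ∀ a b, a ≤ b → Le (p a) (p b) := by
    intro a b h
    rcases h.lt_or_eq with h | h
    · exact ((hp b).2.2 a h).1
    · rw [h]
      exact Le.refl _
  have hdir : Directed (· ≥ ·) fun a => (p a).1 := by
    intro a b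
    refine ⟨max a b, (hle a _ (le_max_left _ _)).1, (hle b _ (le_max_right _ _)).1⟩
  have hmem : ∀ N, N ∈ (⨅ a, (p a).1) ↔ ∃ a, N ∈ (p a).1 := fun N =>
    Filter.mem_iInf_of_directed hdir N
  have hprom : ∀ a, ∀ A ∈ (p a).2, cofinite ⊓ 𝓟 A ≤ ⨅ a, (p a).1 := by
    intro a A hA N hN
    obtain ⟨b, hb⟩ := (hmem N).1 hN
    rw [mem_cofinite_inf]
    exact (hp (max a b)).1.orth A ((hle a _ (le_max_left _ _)).2 hA) N
      ((hle b _ (le_max_right _ _)).1 hb)
  refine ⟨⨅ a, (p a).1, ?_, ?_, ?_, ?_⟩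
  · obtain ⟨a⟩ := hT0
    exact (iInf_le _ a).trans (hp a).1.cof
  · obtain ⟨a⟩ := hT0
    obtain ⟨A, hA, hA2⟩ := (hp a).1.thin ∅ (empty_subset _) finite_empty
    refine Filter.NeBot.mono ?_ (hprom a A hA)
    rw [Filter.neBot_iff, Ne, ← Filter.empty_mem_iff_bot, mem_cofinite_inf]
    intro h
    rw [Set.sUnion_empty] at hA2
    exact hA2 h
  · intro hcg
    obtain ⟨N, hN⟩ := (⨅ a, (p a).1).exists_antitone_basis
    have h1 : ∀ k, ∃ a, N k ∈ (p a).1 := fun k => (hmem _).1 (hN.1.mem_of_mem (i := k) trivial)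
    choose g hg using h1
    obtain ⟨b, hb⟩ := hcof g
    obtain ⟨b', hb'⟩ := hcof fun _ => b
    have h2 : (p b).1 ≤ ⨅ a, (p a).1 := by
      intro K hK
      obtain ⟨k, -, hk⟩ := hN.1.mem_iff.1 hK
      exact Filter.mem_of_superset ((hle _ _ (hb k).le).1 (hg k)) hk
    exact ((hp b').2.2 b (hb' 0)).2
      (le_antisymm ((hle _ _ (hb' 0).le).1) (h2.trans (iInf_le _ b')))
  · intro i hne hl
    rcases (hp (e i)).2.1 i rfl hne with h | ⟨A, hA, f, hf, hf2⟩
    · exact absurd (lsc_pt_mono (iInf_le _ (e i)) hl) h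
    · exact ⟨f, continuous_pt_mono (hprom _ A hA) hf, hf2⟩

end Pool.Agent.Sel
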