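import Pool.Agent.H.MP_b7496a_gt.Mich

/-! # Spaces with one non-isolated point -/

set_option autoImplicit false

open Topology Filter Set

namespace Pool.Agent.Sel

universe u

set_option warn.classDefReducibility false in
/-- The space `M ∪ {∞}` (`∞ = none`) in which the points of `M` are isolated and the neighbourhoods
of `∞` are the sets `N ∪ {∞}`, `N` in the filter `H`. -/
def pt {M : Type} (H : Filter M) : TopologicalSpace (Option M) := nhdsAdjoint none (H.map some)

theorem isOpen_pt {M : Type} {H : Filter M} {s : Set (Option M)} :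
    IsOpen[pt H] s ↔ (none ∈ s → some ⁻¹' s ∈ H) := Iff.rfl

theorem mem_nhds_pt {M : Type} {H : Filter M} {s : Set (Option M)} :
    s ∈ @nhds _ (pt H) none ↔ none ∈ s ∧ some ⁻¹' s ∈ H := by
  rw [show @nhds _ (pt H) none = pure none ⊔ H.map some from nhds_nhdsAdjoint_same _ _]
  rfl

theorem nhds_pt_some {M : Type} {H : Filter M} (i : M) : @nhds _ (pt H) (some i) = pure (some i) :=
  nhds_nhdsAdjoint_of_ne _ (by simp)

theorem isOpen_singleton_pt {M : Type} {H : Filter M} {z : Option M} (hz : z ≠ none) :
    IsOpen[pt H] {z} := isOpen_singleton_nhdsAdjoint _ hz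

theorem isClosed_pt_of_none {M : Type} {H : Filter M} {s : Set (Option M)} (h : none ∈ s) :
    IsClosed[pt H] s := by
  let _ := pt H
  rw [← isOpen_compl_iff, isOpen_pt]
  exact fun h2 => absurd h h2

/-- If `H` contains the complements of points then the space is regular. -/
theorem t3_pt {M : Type} {H : Filter M} (hH : ∀ i : M, {i}ᶜ ∈ H) : @T3Space _ (pt H) := by
  let _ := pt H
  have h1 : T1Space (Option M) := by
    refine ⟨fun z => ?_⟩
    cases z with
    | none => exact isClosed_pt_of_none rfl
    | some i =>
      rw [← isOpen_compl_iff, isOpen_pt]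
      intro _
      refine Filter.mem_of_superset (hH i) fun j hj h => hj ?_
      exact Option.some_injective _ h
  have h2 : RegularSpace (Option M) := by
    refine RegularSpace.of_exists_mem_nhds_isClosed_subset fun z s hs => ?_
    cases z with
    | none => exact ⟨s, hs, isClosed_pt_of_none (mem_of_mem_nhds hs), Subset.rfl⟩
    | some i =>
      refine ⟨{some i}, ?_, isClosed_singleton, ?_⟩
      · rw [nhds_pt_some]
        exact mem_pure.2 rfl
      · intro z hz
        rw [mem_singleton_iff.1 hz]
        exact mem_of_mem_nhds hs
  exact T3Space.mk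

/-- The space is first countable if `H` is countably generated. -/
theorem firstCountable_pt {M : Type} {H : Filter M} [H.IsCountablyGenerated] :
    @FirstCountableTopology _ (pt H) := by
  let _ := pt H
  refine ⟨fun z => ?_⟩
  cases z with
  | none =>
    rw [show @nhds _ (pt H) none = pure none ⊔ H.map some from nhds_nhdsAdjoint_same _ _]
    infer_instance
  | some i =>
    rw [nhds_pt_some]
    infer_instance

theorem cg_of_firstCountable_pt {M : Type} {H : Filter M} (h : @FirstCountableTopology _ (pt H)) :
    H.IsCountablyGenerated := by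
  let _ := pt H
  have h1 : (comap some (𝓝 (none : Option M))).IsCountablyGenerated := inferInstance
  have h2 : comap some (𝓝 (none : Option M)) = H := by
    rw [show @nhds _ (pt H) none = pure none ⊔ H.map some from nhds_nhdsAdjoint_same _ _,
      comap_sup, comap_map (Option.some_injective _)]
    have h3 : comap (some : M → Option M) (pure none) = ⊥ := by
      rw [comap_pure, principal_eq_bot_iff]
      ext i
      simp
    rw [h3, bot_sup_eq]
  rwa [h2] at h1

/-- Lower semicontinuity of maps into such a space. -/
theorem lsc_pt {Y M : Type} [TopologicalSpace Y] {H : Filter M} {φ : Y → Set (Option M)} :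
    @LSC Y (Option M) _ (pt H) φ ↔ (∀ n, IsOpen {y | some n ∈ φ y}) ∧
      ∀ N ∈ H, IsOpen {y | none ∈ φ y ∨ ∃ n ∈ N, some n ∈ φ y} := by
  constructor
  · intro h
    refine ⟨fun n => ?_, fun N hN => ?_⟩
    · have h1 := h {some n} (isOpen_singleton_pt (by simp))
      convert h1 using 1
      ext y
      rw [mem_ofPred_eq, mem_ofPred_eq, Set.inter_singleton_nonempty]
    · have h1 := h (insert none (some '' N)) (by
        rw [isOpen_pt]
        intro _
        refine Filter.mem_of_superset hN fun i hi => Or.inr ⟨i, hi, rfl⟩)
      convert h1 using 1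
      ext y
      constructor
      · rintro (h2 | ⟨n, hn, h2⟩)
        · exact ⟨none, h2, Or.inl rfl⟩
        · exact ⟨some n, h2, Or.inr ⟨n, hn, rfl⟩⟩
      · rintro ⟨z, hz, h2 | ⟨n, hn, h2⟩⟩
        · left
          rw [← h2]
          exact hz
        · right
          exact ⟨n, hn, by rw [h2]; exact hz⟩
  · rintro ⟨h1, h2⟩ U hU
    by_cases h : none ∈ U
    · have h3 := h2 _ (isOpen_pt.1 hU h)
      convert h3 using 1
      ext y
      constructor
      · rintro ⟨z, hz, hzU⟩
        cases z with
        | none => exact Or.inl hz
        | some n => exact Or.inr ⟨n, hzU, hz⟩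
      · rintro (h4 | ⟨n, hn, h4⟩)
        · exact ⟨none, h4, h⟩
        · exact ⟨some n, h4, hn⟩
    · have h3 : {y | (φ y ∩ U).Nonempty} = ⋃ n ∈ {n | some n ∈ U}, {y | some n ∈ φ y} := by
        ext y
        rw [mem_iUnion₂]
        constructor
        · rintro ⟨z, hz, hzU⟩
          cases z with
          | none => exact absurd hzU h
          | some n => exact ⟨n, hzU, hz⟩
        · rintro ⟨n, hn, h4⟩
          exact ⟨some n, h4, hn⟩
      rw [h3]
      exact isOpen_biUnion fun n _ => h1 n

/-- Continuity of maps into such a space. -/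
theorem continuous_pt_mono {Y M : Type} [TopologicalSpace Y] {H G : Filter M} (hGH : G ≤ H)
    {f : Y → Option M} (hf : @Continuous Y (Option M) _ (pt G) f) :
    @Continuous Y (Option M) _ (pt H) f := by
  rw [continuous_def] at hf ⊢
  intro s hs
  exact hf s (isOpen_pt.2 fun h => hGH (isOpen_pt.1 hs h))

end Pool.Agent.Sel
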