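import Pool.Agent.H.MP_b7496a_gt.Emb

/-! # Selections: definitions, and the transfer from `ℚ` -/

set_option autoImplicit false

open Topology Filter Set

namespace Pool.Agent.Sel

universe u

/-- Lower semicontinuity of a set-valued map. -/
def LSC {Y : Type} {X : Type u} [TopologicalSpace Y] [TopologicalSpace X] (φ : Y → Set X) : Prop :=
  ∀ U : Set X, IsOpen U → IsOpen {y | (φ y ∩ U).Nonempty}

/-- `X` is `Y`-selective: every lower semicontinuous map from `Y` to the nonempty closed subsets of
`X` has a continuous selection. -/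
def Selective (Y : Type) (X : Type u) [TopologicalSpace Y] [TopologicalSpace X] : Prop :=
  ∀ φ : Y → Set X, (∀ y, IsClosed (φ y) ∧ (φ y).Nonempty) → LSC φ →
    ∃ f : Y → X, Continuous f ∧ ∀ y, f y ∈ φ y

/-- `X` is `C`-selective: it is `Y`-selective for every countable regular (`T1`) space `Y`. -/
def CSelective (X : Type u) [TopologicalSpace X] : Prop :=
  ∀ (Y : Type) [TopologicalSpace Y] [T3Space Y] [Countable Y], Selective Y X

/-- `X` is `ℚ`-selective. -/
def QSelective (X : Type u) [TopologicalSpace X] : Prop := Selective ℚ X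

/-- The filter on the index set generated by the sets `{i | A i ∩ U ≠ ∅}`, `U` a neighbourhood
of `b`. -/
def hitFilter {I : Type} {X : Type u} [TopologicalSpace X] (A : I → Set X) (b : X) : Filter I :=
  (𝓝 b).lift' fun U => {i | (A i ∩ U).Nonempty}

theorem mem_hitFilter {I : Type} {X : Type u} [TopologicalSpace X] {A : I → Set X} {b : X}
    {s : Set I} : s ∈ hitFilter A b ↔ ∃ U ∈ 𝓝 b, ∀ i, (A i ∩ U).Nonempty → i ∈ s := by
  rw [hitFilter, mem_lift'_sets]
  · rfl
  · intro U V h i hi
    exact hi.mono (inter_subset_inter_right _ h)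

variable {X : Type u} [TopologicalSpace X]

/-- Selectivity passes to closed subspaces. -/
theorem Selective.of_isClosedEmbedding {Y Z : Type} [TopologicalSpace Y] [TopologicalSpace Z]
    (h : Selective Y X) {i : Z → Y} (hi : IsClosedEmbedding i) : Selective Z X := by
  classical
  intro φ hφ hl
  by_cases hX : Nonempty X
  swap
  · have hZ : IsEmpty Z := ⟨fun z => hX ⟨(hφ z).2.some⟩⟩
    exact ⟨fun z => hZ.elim z, by
      rw [continuous_def]
      intro U _
      convert isOpen_univ
      ext z
      exact hZ.elim z, fun z => hZ.elim z⟩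
  obtain ⟨x0⟩ := hX
  let ψ : Y → Set X := fun y => {x | ∀ z, i z = y → x ∈ φ z}
  have hψ : ∀ z, ψ (i z) = φ z := by
    intro z
    ext x
    constructor
    · intro hx
      exact hx z rfl
    · intro hx z' hz'
      rw [hi.injective hz']
      exact hx
  have hψ' : ∀ y, y ∉ range i → ψ y = univ := by
    intro y hy
    ext x
    simp only [mem_univ, iff_true]
    intro z hz
    exact absurd ⟨z, hz⟩ hy
  obtain ⟨f, hf, hfψ⟩ := h ψ (fun y => by
    by_cases hy : y ∈ range i
    · obtain ⟨z, rfl⟩ := hy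
      rw [hψ]
      exact hφ z
    · rw [hψ' y hy]
      exact ⟨isClosed_univ, ⟨x0, mem_univ _⟩⟩) (fun U hU => by
    have h1 : {y | (ψ y ∩ U).Nonempty} = (i '' {z | ¬ (φ z ∩ U).Nonempty})ᶜ ∩
        {y | U.Nonempty} := by
      ext y
      by_cases hy : y ∈ range i
      · obtain ⟨z, rfl⟩ := hy
        rw [mem_inter_iff, mem_compl_iff, hi.injective.mem_set_image]
        show (ψ (i z) ∩ U).Nonempty ↔ ¬ ¬ (φ z ∩ U).Nonempty ∧ U.Nonempty
        rw [hψ, not_not]
        exact ⟨fun h => ⟨h, h.mono inter_subset_right⟩, fun h => h.1⟩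
      · show (ψ y ∩ U).Nonempty ↔ ¬ y ∈ i '' _ ∧ U.Nonempty
        rw [hψ' y hy, univ_inter]
        exact ⟨fun h => ⟨fun h2 => hy (image_subset_range _ _ h2), h⟩, fun h => h.2⟩
    rw [h1]
    refine IsOpen.inter ?_ isOpen_const
    have h2 : IsClosed {z | ¬ (φ z ∩ U).Nonempty} := (hl U hU).isClosed_compl
    exact (hi.isClosedMap _ h2).isOpen_compl)
  exact ⟨f ∘ i, hf.comp hi.continuous, fun z => by
    have h1 := hfψ (i z)
    rwa [hψ] at h1⟩

/-- A `ℚ`-selective space is selective for the topologies `topOf C`. -/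
theorem QSelective.topOf (h : QSelective X) {W ι : Type} [Countable W] [Countable ι]
    (C : ι → Set W) (hC : ∀ w w', (∀ j, w ∈ C j ↔ w' ∈ C j) → w = w') :
    @Selective W X (topOf C) _ := by
  let _ : TopologicalSpace W := Sel.topOf C
  obtain ⟨i, hi⟩ := exists_rat C hC
  exact Selective.of_isClosedEmbedding h hi

/-- Selections along a countably generated filter. -/
theorem QSelective.seq (h : QSelective X) {I : Type} [Countable I] {B : I → Set X} {b : X}
    [T1Space X] (hB : ∀ i, IsClosed (B i) ∧ (B i).Nonempty) {E : ℕ → Set I} (hE : Antitone E)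
    (hEB : ∀ U ∈ 𝓝 b, ∃ n, ∃ F : Finset I, ∀ i ∈ E n, i ∉ F → (B i ∩ U).Nonempty) :
    ∃ x : I → X, (∀ i, x i ∈ B i) ∧
      ∀ U ∈ 𝓝 b, ∃ n, ∃ F : Finset I, ∀ i ∈ E n, i ∉ F → x i ∈ U := by
  classical
  let C : ℕ ⊕ I → Set (Option I) := Sum.elim (fun n => {w | ∀ i, w = some i → i ∈ E n})
    (fun i => {some i})
  have hC1 : ∀ n w, w ∈ C (Sum.inl n) ↔ ∀ i, w = some i → i ∈ E n := fun _ _ => Iff.rfl
  have hC2 : ∀ i w, w ∈ C (Sum.inr i) ↔ w = some i := fun _ _ => Iff.rfl
  have hsep : ∀ w w', (∀ j, w ∈ C j ↔ w' ∈ C j) → w = w' := by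
    intro w w' hw
    cases w with
    | none =>
      cases w' with
      | none => rfl
      | some i =>
        have h1 := (hw (Sum.inr i)).2 rfl
        exact absurd h1 (by simp [hC2])
    | some i => exact ((hw (Sum.inr i)).1 rfl).symm
  let φ : Option I → Set X := fun w => w.elim {b} B
  let _ : TopologicalSpace (Option I) := Sel.topOf C
  have hnone : ∀ s : Set (Option I), s ∈ 𝓝 (none : Option I) ↔
      none ∈ s ∧ ∃ n, ∃ F : Finset I, ∀ i ∈ E n, i ∉ F → some i ∈ s := by
    intro s
    rw [show (s ∈ 𝓝 (none : Option I)) ↔ _ from mem_nhds_topOf (C := C)]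
    constructor
    · rintro ⟨J, hJ⟩
      refine ⟨hJ none fun _ _ => Iff.rfl, ?_⟩
      obtain ⟨n, hn⟩ : ∃ n : ℕ, ∀ m, Sum.inl m ∈ J → m ≤ n := by
        refine ⟨∑ m ∈ (J.toLeft), m, fun m hm => ?_⟩
        exact Finset.single_le_sum (f := fun m => m) (fun _ _ => Nat.zero_le _)
          (Finset.mem_toLeft.2 hm)
      refine ⟨n, J.toRight, fun i hi hiF => hJ (some i) fun j hj => ?_⟩
      cases j with
      | inl m =>
        rw [hC1, hC1]
        refine ⟨fun _ k hk => absurd hk (by simp), fun _ k hk => ?_⟩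
        rw [← Option.some_injective _ hk]
        exact hE (hn m hj) hi
      | inr k =>
        rw [hC2, hC2]
        refine ⟨fun hk => ?_, fun hk => absurd hk (by simp)⟩
        exfalso
        apply hiF
        rw [Option.some_injective _ hk]
        exact Finset.mem_toRight.2 hj
    · rintro ⟨h0, n, F, hF⟩
      refine ⟨insert (Sum.inl n) (F.image Sum.inr), fun w hw => ?_⟩
      cases w with
      | none => exact h0
      | some i =>
        refine hF i ?_ ?_
        · have h1 := (hw (Sum.inl n) (Finset.mem_insert_self _ _)).2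
            (by rw [hC1]; exact fun k hk => absurd hk (by simp))
          exact (hC1 n _).1 h1 i rfl
        · intro hiF
          have h1 := (hw (Sum.inr i) (Finset.mem_insert_of_mem
            (Finset.mem_image_of_mem _ hiF))).1 rfl
          exact absurd h1 (by simp [hC2])
  have hsome : ∀ (s : Set (Option I)) (i : I), some i ∈ s → s ∈ 𝓝 (some i : Option I) := by
    intro s i hi
    rw [show (s ∈ 𝓝 (some i : Option I)) ↔ _ from mem_nhds_topOf (C := C)]
    refine ⟨{Sum.inr i}, fun w hw => ?_⟩
    have h1 : w = some i := (hw (Sum.inr i) (Finset.mem_singleton_self _)).2 rfl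
    rw [h1]
    exact hi
  obtain ⟨f, hf, hfφ⟩ := h.topOf C hsep φ (by
    intro w
    cases w with
    | none => exact ⟨isClosed_singleton, singleton_nonempty b⟩
    | some i => exact hB i) (by
    intro U hU
    rw [isOpen_iff_mem_nhds]
    intro w hw
    cases w with
    | some i => exact hsome _ i hw
    | none =>
      rw [hnone]
      refine ⟨hw, ?_⟩
      have hb : b ∈ U := by
        obtain ⟨x, hx1, hx2⟩ := hw
        have hx3 : x = b := hx1
        rw [← hx3]
        exact hx2
      exact hEB U (hU.mem_nhds hb))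
  refine ⟨fun i => f (some i), fun i => hfφ (some i), fun U hU => ?_⟩
  have h0 : f none = b := hfφ none
  have h1 : f ⁻¹' U ∈ 𝓝 (none : Option I) := hf.continuousAt.preimage_mem_nhds (by rwa [h0])
  exact ((hnone _).1 h1).2

end Pool.Agent.Sel
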